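import Pool.Agent.Lib.MP_53fa4a_an.Trans

/-!
# Exponentials on a spectral set: approximation and mass
-/

set_option autoImplicit false

open MeasureTheory Set Filter Metric
open scoped ENNReal Topology ComplexConjugate

namespace Pool.Agent.SpecND

variable {d : ℕ}

/-- the exponential `x ↦ exp (2 π i ⟨l, x⟩)` -/
noncomputable def ee (l x : EuclideanSpace ℝ (Fin d)) : ℂ :=
  Complex.exp (2 * Real.pi * Complex.I * ((inner ℝ l x : ℝ) : ℂ))

lemma ee_eq (l x : E d) : ee l x = Complex.exp (((2 * Real.pi * inner ℝ l x : ℝ) : ℂ) * Complex.I) := by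
  unfold ee
  congr 1
  push_cast
  ring

lemma norm_ee (l x : E d) : ‖ee l x‖ = 1 := by
  rw [ee_eq, Complex.norm_exp_ofReal_mul_I]

lemma ee_add (l x t : E d) : ee l (x + t) = ee l t * ee l x := by
  unfold ee
  rw [← Complex.exp_add, inner_add_right]
  congr 1
  push_cast
  ring

lemma ee_neg (l x : E d) : ee l (-x) = conj (ee l x) := by
  rw [ee_eq, ee_eq, ← Complex.exp_conj]
  congr 1
  rw [map_mul, Complex.conj_I, Complex.conj_ofReal, inner_neg_right]
  push_cast
  ring

lemma ee_sub (l x t : E d) : ee l (t - x) = ee l t * conj (ee l x) := by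
  rw [sub_eq_neg_add, ee_add, ee_neg]

lemma ee_mul_conj (l x : E d) : ee l x * conj (ee l x) = 1 := by
  rw [Complex.mul_conj, Complex.normSq_eq_norm_sq, norm_ee]
  simp

lemma continuous_ee (l : E d) : Continuous (ee l) := by
  unfold ee
  exact Complex.continuous_exp.comp
    (continuous_const.mul (Complex.continuous_ofReal.comp (continuous_const.inner continuous_id)))

/-- a trigonometric sum -/
noncomputable def trig (S : Finset (E d)) (c : E d → ℂ) (x : E d) : ℂ := ∑ l ∈ S, c l * ee l x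

lemma continuous_trig (S : Finset (E d)) (c : E d → ℂ) : Continuous (trig S c) := by
  unfold trig
  exact continuous_finsetSum _ fun l _ => continuous_const.mul (continuous_ee l)

/-- Parseval's identity for a finite orthogonal sum of exponentials -/
lemma parseval {Ω : Set (E d)} (hfin : volume Ω ≠ ∞) {Λ : Set (E d)}
    (horth : ∀ l ∈ Λ, ∀ l' ∈ Λ, l ≠ l' → ∫ x in Ω, ee l x * conj (ee l' x) = 0)
    {S : Finset (E d)} (hS : (S : Set (E d)) ⊆ Λ) (c : E d → ℂ) :
    ∫⁻ x in Ω, ‖trig S c x‖ₑ ^ 2 = ENNReal.ofReal (volume.real Ω * ∑ l ∈ S, ‖c l‖ ^ 2) := by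
  have : IsFiniteMeasure (volume.restrict Ω) := ⟨by rwa [Measure.restrict_apply_univ, lt_top_iff_ne_top]⟩
  have hbd : ∀ x, ‖trig S c x‖ ≤ ∑ l ∈ S, ‖c l‖ := by
    intro x
    unfold trig
    refine (norm_sum_le _ _).trans (Finset.sum_le_sum fun l _ => ?_)
    rw [norm_mul, norm_ee, mul_one]
  have hint : Integrable (fun x => ‖trig S c x‖ ^ 2) (volume.restrict Ω) := by
    refine Integrable.of_bound ((continuous_trig S c).norm.pow 2).aestronglyMeasurable
      ((∑ l ∈ S, ‖c l‖) ^ 2) (Eventually.of_forall fun x => ?_)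
    rw [Real.norm_eq_abs, abs_of_nonneg (by positivity)]
    exact pow_le_pow_left₀ (norm_nonneg _) (hbd x) 2
  have h1 : ∫⁻ x in Ω, ‖trig S c x‖ₑ ^ 2 = ENNReal.ofReal (∫ x in Ω, ‖trig S c x‖ ^ 2) := by
    rw [ofReal_integral_eq_lintegral_ofReal hint (Eventually.of_forall fun x => by positivity)]
    refine lintegral_congr fun x => ?_
    rw [ENNReal.ofReal_pow (norm_nonneg _), ofReal_norm]
  rw [h1]
  congr 1
  -- the complex computation
  have hintl : ∀ l l' : E d, Integrable (fun x => ee l x * conj (ee l' x)) (volume.restrict Ω) := by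
    intro l l'
    refine Integrable.of_bound
      ((continuous_ee l).mul (Complex.continuous_conj.comp (continuous_ee l'))).aestronglyMeasurable
      1 (Eventually.of_forall fun x => ?_)
    rw [norm_mul, RCLike.norm_conj, norm_ee, norm_ee, mul_one]
  have h2 : ((∫ x in Ω, ‖trig S c x‖ ^ 2 : ℝ) : ℂ) =
      ((volume.real Ω * ∑ l ∈ S, ‖c l‖ ^ 2 : ℝ) : ℂ) := by
    rw [← integral_complex_ofReal]
    have e1 : ∀ x, ((‖trig S c x‖ ^ 2 : ℝ) : ℂ) =
        ∑ l ∈ S, ∑ l' ∈ S, (c l * conj (c l')) * (ee l x * conj (ee l' x)) := by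
      intro x
      rw [← Complex.normSq_eq_norm_sq, ← Complex.mul_conj]
      unfold trig
      rw [map_sum, Finset.sum_mul_sum]
      refine Finset.sum_congr rfl fun l _ => Finset.sum_congr rfl fun l' _ => ?_
      rw [map_mul]
      ring
    rw [integral_congr_ae (Eventually.of_forall e1)]
    rw [integral_finsetSum _ fun l _ => integrable_finsetSum _ fun l' _ =>
      (hintl l l').const_mul _]
    have e2 : ∀ l ∈ S, ∫ x in Ω, ∑ l' ∈ S, (c l * conj (c l')) * (ee l x * conj (ee l' x)) =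
        ((volume.real Ω * ‖c l‖ ^ 2 : ℝ) : ℂ) := by
      intro l hl
      rw [integral_finsetSum _ fun l' _ => (hintl l l').const_mul _]
      rw [Finset.sum_eq_single l]
      · rw [integral_const_mul]
        have e3 : ∀ x, ee l x * conj (ee l x) = 1 := ee_mul_conj l
        rw [integral_congr_ae (Eventually.of_forall e3)]
        rw [Complex.mul_conj, Complex.normSq_eq_norm_sq]
        simp only [integral_const, MeasurableSet.univ, measureReal_restrict_apply, univ_inter]
        rw [Complex.real_smul]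
        push_cast
        ring
      · intro l' hl' hne
        rw [integral_const_mul, horth l (hS hl) l' (hS hl') (Ne.symm hne), mul_zero]
      · intro h
        exact absurd hl h
    rw [Finset.sum_congr rfl e2, ← Complex.ofReal_sum, Finset.mul_sum]
  exact_mod_cast h2

lemma trig_add (S : Finset (E d)) (c : E d → ℂ) (x t : E d) :
    trig S c (x + t) = trig S (fun l => c l * ee l t) x := by
  unfold trig
  refine Finset.sum_congr rfl fun l _ => ?_
  rw [ee_add]
  ring

lemma trig_sub (S : Finset (E d)) (c : E d → ℂ) (x t : E d) :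
    trig S c (t - x) = conj (trig S (fun l => conj (c l * ee l t)) x) := by
  unfold trig
  rw [map_sum]
  refine Finset.sum_congr rfl fun l _ => ?_
  rw [ee_sub, map_mul, Complex.conj_conj]
  ring

/-- completeness gives approximation in mean square -/
lemma exists_approx {Ω : Set (E d)} (hfin : volume Ω ≠ ∞) {Λ : Set (E d)}
    (hcomp : ∀ f : E d → ℂ, MemLp f 2 (volume.restrict Ω) →
      (∀ l ∈ Λ, ∫ x in Ω, f x * conj (ee l x) = 0) → f =ᵐ[volume.restrict Ω] 0)
    {f : E d → ℂ} (hf : MemLp f 2 (volume.restrict Ω)) {δ : ℝ≥0∞} (hδ : 0 < δ) :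
    ∃ (S : Finset (E d)) (c : E d → ℂ), (S : Set (E d)) ⊆ Λ ∧
      eLpNorm (fun x => trig S c x - f x) 2 (volume.restrict Ω) < δ := by
  have : IsFiniteMeasure (volume.restrict Ω) := ⟨by rwa [Measure.restrict_apply_univ, lt_top_iff_ne_top]⟩
  have hee : ∀ l : E d, MemLp (ee l) 2 (volume.restrict Ω) := fun l =>
    MemLp.of_bound (continuous_ee l).aestronglyMeasurable 1 (Eventually.of_forall fun x => (norm_ee l x).le)
  let v : E d → Lp ℂ 2 (volume.restrict Ω) := fun l => (hee l).toLp
  let W : Submodule ℂ (Lp ℂ 2 (volume.restrict Ω)) := Submodule.span ℂ (v '' Λ)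
  have hW : W.topologicalClosure = ⊤ := by
    rw [Submodule.topologicalClosure_eq_top_iff, Submodule.eq_bot_iff]
    intro g hg
    have h0 : ∀ l ∈ Λ, ∫ x in Ω, g x * conj (ee l x) = 0 := by
      intro l hl
      have h1 := (Submodule.mem_orthogonal W g).1 hg (v l) (Submodule.subset_span ⟨l, hl, rfl⟩)
      rw [L2.inner_def] at h1
      rw [← h1]
      refine integral_congr_ae ?_
      filter_upwards [(hee l).coeFn_toLp] with x hx
      simp only [v]
      rw [hx, RCLike.inner_apply]
    exact (Lp.eq_zero_iff_ae_eq_zero).2 (hcomp g (Lp.memLp g) h0)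
  have hcoe : ∀ (c : E d → ℂ) (t : Finset (E d)),
      ⇑(∑ i ∈ t, c i • v i) =ᵐ[volume.restrict Ω] trig t c := by
    classical
    intro c t
    induction t using Finset.induction_on with
    | empty =>
      simp only [Finset.sum_empty]
      filter_upwards [Lp.coeFn_zero ℂ 2 (volume.restrict Ω)] with x hx
      rw [hx]
      simp [trig]
    | insert a s ha ih =>
      rw [Finset.sum_insert ha]
      filter_upwards [Lp.coeFn_add (c a • v a) (∑ i ∈ s, c i • v i), Lp.coeFn_smul (c a) (v a),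
        (hee a).coeFn_toLp, ih] with x h1 h2 h3 h4
      rw [h1, Pi.add_apply, h2, h4, Pi.smul_apply]
      simp only [v]
      rw [h3]
      unfold trig
      rw [Finset.sum_insert ha, smul_eq_mul]
  have hmem : hf.toLp ∈ closure (W : Set (Lp ℂ 2 (volume.restrict Ω))) := by
    rw [← Submodule.topologicalClosure_coe, hW]
    trivial
  obtain ⟨g, hg, hdist⟩ := EMetric.mem_closure_iff.1 hmem δ hδ
  obtain ⟨k, hk, hkg⟩ := (Finsupp.mem_span_image_iff_linearCombination ℂ).1 hg
  refine ⟨k.support, k, hk, ?_⟩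
  have hg' : ⇑g =ᵐ[volume.restrict Ω] trig k.support k := by
    rw [← hkg, Finsupp.linearCombination_apply, Finsupp.sum]
    exact hcoe k k.support
  rw [edist_comm, Lp.edist_def] at hdist
  refine lt_of_le_of_lt (le_of_eq ?_) hdist
  refine eLpNorm_congr_ae ?_
  filter_upwards [hg', hf.coeFn_toLp] with x h1 h2
  rw [Pi.sub_apply, h1, h2]

lemma eLpNorm_sq {Ω : Set (E d)} (f : E d → ℂ) :
    eLpNorm f 2 (volume.restrict Ω) ^ 2 = ∫⁻ x in Ω, ‖f x‖ₑ ^ 2 := by
  have h := eLpNorm_nnreal_pow_eq_lintegral (f := f) (μ := volume.restrict Ω)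
    (p := (2 : NNReal)) two_ne_zero
  have h2 : ((2 : NNReal) : ℝ) = ((2 : ℕ) : ℝ) := by norm_num
  simp only [h2, ENNReal.rpow_natCast] at h
  exact_mod_cast h

/-- most of the mass is in `A` -/
theorem exists_mass {Ω : Set (E d)} (hΩ : MeasurableSet Ω) (hfin : volume Ω ≠ ∞) {Λ : Set (E d)}
    (horth : ∀ l ∈ Λ, ∀ l' ∈ Λ, l ≠ l' → ∫ x in Ω, ee l x * conj (ee l' x) = 0)
    (hcomp : ∀ f : E d → ℂ, MemLp f 2 (volume.restrict Ω) →
      (∀ l ∈ Λ, ∫ x in Ω, f x * conj (ee l x) = 0) → f =ᵐ[volume.restrict Ω] 0)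
    {A : Set (E d)} (hA : MeasurableSet A) (hAΩ : A ⊆ Ω) (hA0 : volume A ≠ 0) {η : ℝ≥0∞}
    (hη : η ≠ 0) :
    ∃ (G : E d → ℝ≥0∞) (M : ℝ≥0∞), Measurable G ∧ M ≠ 0 ∧ M ≠ ∞ ∧
      (∀ t : E d, ∫⁻ x in Ω, G (x + t) = M) ∧ (∀ t : E d, ∫⁻ x in Ω, G (t - x) = M) ∧
      M ≤ (∫⁻ x in A, G x) + η * M := by
  have : IsFiniteMeasure (volume.restrict Ω) := ⟨by rwa [Measure.restrict_apply_univ, lt_top_iff_ne_top]⟩
  have hAfin : volume A ≠ ∞ := ne_top_of_le_ne_top hfin (measure_mono hAΩ)
  -- a real number `e` with `0 < e ≤ 1` and `ofReal e ≤ η`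
  obtain ⟨e, he0, he1, heη⟩ : ∃ e : ℝ, 0 < e ∧ e ≤ 1 ∧ ENNReal.ofReal e ≤ η := by
    have h1 : min η 1 ≠ 0 := by
      rw [← pos_iff_ne_zero]
      exact lt_min (pos_iff_ne_zero.2 hη) one_pos
    have h2 : min η 1 ≠ ∞ := ne_top_of_le_ne_top ENNReal.one_ne_top (min_le_right _ _)
    refine ⟨(min η 1).toReal, ENNReal.toReal_pos h1 h2, ?_, ?_⟩
    · have := ENNReal.toReal_mono ENNReal.one_ne_top (min_le_right η 1)
      simpa using this
    · rw [ENNReal.ofReal_toReal h2]
      exact min_le_left _ _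
  let f : E d → ℂ := A.indicator 1
  have hf : MemLp f 2 (volume.restrict Ω) := by
    refine MemLp.of_bound (measurable_one.indicator hA).aestronglyMeasurable 1
      (Eventually.of_forall fun x => ?_)
    simp only [f, indicator]
    split_ifs <;> simp
  set a : ℝ := volume.real A with ha
  have ha0 : 0 < a := ENNReal.toReal_pos hA0 hAfin
  set b : ℝ := √a with hb
  have hb0 : 0 < b := Real.sqrt_pos.2 ha0
  set δ : ℝ := b * (√e / 2) with hδ
  have hse : 0 < √e := Real.sqrt_pos.2 he0
  have hse1 : √e ≤ 1 := Real.sqrt_le_one.2 he1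
  have hδ0 : 0 < δ := by positivity
  have hδb : δ ≤ b / 2 := by
    rw [hδ]
    nlinarith
  obtain ⟨S, c, hS, hclose⟩ := exists_approx hfin hcomp hf (ENNReal.ofReal_pos.2 hδ0)
  set F := trig S c with hF
  have hFc : Continuous F := continuous_trig S c
  let G : E d → ℝ≥0∞ := fun x => ‖F x‖ₑ ^ 2
  have hG : Measurable G := (hFc.enorm.measurable).pow_const 2
  -- `M`
  set M : ℝ≥0∞ := ENNReal.ofReal (volume.real Ω * ∑ l ∈ S, ‖c l‖ ^ 2) with hM
  have hMG : ∫⁻ x in Ω, G x = M := parseval hfin horth hS c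
  have h1 : ∀ t : E d, ∫⁻ x in Ω, G (x + t) = M := by
    intro t
    have e1 : ∀ x, G (x + t) = ‖trig S (fun l => c l * ee l t) x‖ₑ ^ 2 := by
      intro x
      simp only [G, hF]
      rw [trig_add]
    rw [lintegral_congr e1, parseval hfin horth hS]
    simp only [norm_mul, norm_ee, mul_one, hM]
  have h2 : ∀ t : E d, ∫⁻ x in Ω, G (t - x) = M := by
    intro t
    have e1 : ∀ x, G (t - x) = ‖trig S (fun l => conj (c l * ee l t)) x‖ₑ ^ 2 := by
      intro x
      simp only [G, hF]
      rw [trig_sub]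
      congr 1
      exact RCLike.enorm_conj _
    rw [lintegral_congr e1, parseval hfin horth hS]
    simp only [RCLike.norm_conj, norm_mul, norm_ee, mul_one, hM]
  -- norms
  have hFL : MemLp F 2 (volume.restrict Ω) := by
    refine MemLp.of_bound hFc.aestronglyMeasurable (∑ l ∈ S, ‖c l‖) (Eventually.of_forall fun x => ?_)
    rw [hF]
    unfold trig
    refine (norm_sum_le _ _).trans (Finset.sum_le_sum fun l _ => ?_)
    rw [norm_mul, norm_ee, mul_one]
  have hX : eLpNorm F 2 (volume.restrict Ω) ^ 2 = M := by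
    rw [eLpNorm_sq]
    exact hMG
  have hfb : eLpNorm f 2 (volume.restrict Ω) = ENNReal.ofReal b := by
    have e1 : eLpNorm f 2 (volume.restrict Ω) ^ 2 = ENNReal.ofReal b ^ 2 := by
      rw [eLpNorm_sq, ← ENNReal.ofReal_pow hb0.le, hb, Real.sq_sqrt ha0.le, ha, measureReal_def,
        ENNReal.ofReal_toReal hAfin]
      have e2 : ∀ x, ‖f x‖ₑ ^ 2 = A.indicator 1 x := by
        intro x
        simp only [f, indicator]
        split_ifs <;> simp
      rw [lintegral_congr e2, lintegral_indicator_one hA, Measure.restrict_apply hA,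
        inter_eq_left.2 hAΩ]
    exact (ENNReal.pow_right_strictMono two_ne_zero).injective e1
  have htri : ENNReal.ofReal b ≤ eLpNorm F 2 (volume.restrict Ω) + ENNReal.ofReal δ := by
    rw [← hfb]
    have e1 : f = F - fun x => F x - f x := by
      funext x
      simp
    calc eLpNorm f 2 (volume.restrict Ω)
        = eLpNorm (F - fun x => F x - f x) 2 (volume.restrict Ω) := by rw [← e1]
      _ ≤ eLpNorm F 2 (volume.restrict Ω) + eLpNorm (fun x => F x - f x) 2 (volume.restrict Ω) :=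
          eLpNorm_sub_le hFL.1 (hFL.1.sub hf.1) one_le_two
      _ ≤ eLpNorm F 2 (volume.restrict Ω) + ENNReal.ofReal δ := add_le_add le_rfl hclose.le
  have hXfin : eLpNorm F 2 (volume.restrict Ω) ≠ ∞ := hFL.2.ne
  set X : ℝ := (eLpNorm F 2 (volume.restrict Ω)).toReal with hXdef
  have hX0 : 0 ≤ X := ENNReal.toReal_nonneg
  have hXe : eLpNorm F 2 (volume.restrict Ω) = ENNReal.ofReal X := (ENNReal.ofReal_toReal hXfin).symm
  rw [hXe] at htri hX
  rw [← ENNReal.ofReal_add hX0 hδ0.le, ENNReal.ofReal_le_ofReal_iff (by positivity)] at htri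
  have hXb : b / 2 ≤ X := by linarith
  have hMX : M = ENNReal.ofReal (X ^ 2) := by rw [← hX, ENNReal.ofReal_pow hX0]
  have hXpos : 0 < X := by linarith
  -- the mass outside
  have hout : ∫⁻ x in Ω \ A, G x ≤ ENNReal.ofReal (δ ^ 2) := by
    have e1 : ∫⁻ x in Ω \ A, G x ≤ ∫⁻ x in Ω, ‖F x - f x‖ₑ ^ 2 := by
      calc ∫⁻ x in Ω \ A, G x = ∫⁻ x in Ω \ A, ‖F x - f x‖ₑ ^ 2 := by
            refine setLIntegral_congr_fun (hΩ.diff hA) fun x hx => ?_
            have : f x = 0 := indicator_of_notMem hx.2 _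
            simp only [G]
            rw [this, sub_zero]
        _ ≤ ∫⁻ x in Ω, ‖F x - f x‖ₑ ^ 2 := lintegral_mono_set sdiff_subset
    refine e1.trans ?_
    rw [← eLpNorm_sq (Ω := Ω) (fun x => F x - f x), ENNReal.ofReal_pow hδ0.le]
    exact pow_le_pow_left' hclose.le 2
  have hsplit : M = (∫⁻ x in A, G x) + ∫⁻ x in Ω \ A, G x := by
    rw [← hMG, ← lintegral_inter_add_sdiff (μ := volume) G Ω hA, inter_eq_right.2 hAΩ]
  refine ⟨G, M, hG, ?_, ENNReal.ofReal_ne_top, h1, h2, ?_⟩
  · rw [hMX]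
    exact (ENNReal.ofReal_pos.2 (by positivity)).ne'
  · calc M = (∫⁻ x in A, G x) + ∫⁻ x in Ω \ A, G x := hsplit
      _ ≤ (∫⁻ x in A, G x) + η * M := by
        refine add_le_add le_rfl (hout.trans ?_)
        calc ENNReal.ofReal (δ ^ 2) ≤ ENNReal.ofReal (e * X ^ 2) := by
              refine ENNReal.ofReal_le_ofReal ?_
              have e1 : δ ^ 2 = b ^ 2 * e / 4 := by
                rw [hδ, mul_pow, div_pow, Real.sq_sqrt he0.le]
                ring
              rw [e1]
              have e2 : b ^ 2 / 4 ≤ X ^ 2 := by nlinarith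
              nlinarith
          _ = ENNReal.ofReal e * M := by
              rw [ENNReal.ofReal_mul he0.le, hMX]
          _ ≤ η * M := mul_le_mul_left heη _

end Pool.Agent.SpecND
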