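import Pool.Agent.Lib.MP_53fa4a_an.Dir
import Pool.Agent.Lib.MP_53fa4a_an.Appr

/-!
# The large values of an average of exponentials with separated frequencies
-/

set_option autoImplicit false

open Finset
open scoped ComplexConjugate

namespace Pool.Agent.SpecND

/-- greedy choice of a net -/
lemma exists_net {X : Type*} [DecidableEq X] (G : Set X) (S : X → X → Prop)
    (hsymm : ∀ x y, S x y → S y x) (hirr : ∀ x, ¬ S x x) {K : ℕ}
    (h : ∀ J : Finset X, (∀ y ∈ J, y ∈ G) → (∀ y ∈ J, ∀ y' ∈ J, y ≠ y' → S y y') → J.card ≤ K) :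
    ∃ J : Finset X, J.card ≤ K ∧ (∀ y ∈ J, y ∈ G) ∧ ∀ x ∈ G, ∃ y ∈ J, ¬ S x y := by
  by_contra hcon
  push Not at hcon
  have key : ∀ n : ℕ, ∃ J : Finset X, J.card = n ∧ (∀ y ∈ J, y ∈ G) ∧
      (∀ y ∈ J, ∀ y' ∈ J, y ≠ y' → S y y') := by
    intro n
    induction n with
    | zero => exact ⟨∅, by simp⟩
    | succ n ih =>
      obtain ⟨J, hJn, hJG, hJS⟩ := ih
      obtain ⟨x, hxG, hx⟩ := hcon J (h J hJG hJS) hJG
      have hxJ : x ∉ J := fun hm => hirr x (hx x hm)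
      refine ⟨insert x J, by rw [card_insert_of_notMem hxJ, hJn], ?_, ?_⟩
      · intro y hy
        rcases mem_insert.1 hy with rfl | hy
        · exact hxG
        · exact hJG y hy
      · intro y hy y' hy' hne
        rw [mem_insert] at hy hy'
        by_cases e1 : y = x
        · by_cases e2 : y' = x
          · exact absurd (e1.trans e2.symm) hne
          · rw [e1]
            exact hx y' (hy'.resolve_left e2)
        · by_cases e2 : y' = x
          · rw [e2]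
            exact hsymm _ _ (hx y (hy.resolve_left e1))
          · exact hJS y (hy.resolve_left e1) y' (hy'.resolve_left e2) hne
  obtain ⟨J, hJ, hJG, hJS⟩ := key (K + 1)
  have := h J hJG hJS
  omega

variable {d : ℕ}

lemma norm_le_of_coord {v : E d} {r : ℝ} (hr : 0 ≤ r) (h : ∀ i, |v i| ≤ r) :
    ‖v‖ ≤ (d + 1) * r := by
  have h1 : ‖v‖ ^ 2 ≤ ((d + 1) * r) ^ 2 := by
    rw [EuclideanSpace.norm_sq_eq]
    calc ∑ i, ‖v i‖ ^ 2 ≤ ∑ _i : Fin d, r ^ 2 := by
          refine sum_le_sum fun i _ => ?_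
          rw [Real.norm_eq_abs]
          exact pow_le_pow_left₀ (abs_nonneg _) (h i) 2
      _ = d * r ^ 2 := by simp
      _ ≤ ((d + 1) * r) ^ 2 := by
          have : (0 : ℝ) ≤ d := Nat.cast_nonneg _
          nlinarith [mul_nonneg this (sq_nonneg r), mul_nonneg (mul_nonneg this this) (sq_nonneg r)]
  exact (pow_le_pow_iff_left₀ (norm_nonneg _) (by positivity) two_ne_zero).1 h1

lemma coord_le_norm (v : E d) (i : Fin d) : |v i| ≤ ‖v‖ := by
  have := PiLp.norm_apply_le v i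
  rwa [Real.norm_eq_abs] at this

lemma ee_eq_ex (l x : E d) : ee l x = ex (∑ i, l i * x i) := by
  rw [ee_eq, ex]
  have : inner ℝ l x = ∑ i, l i * x i := by
    rw [PiLp.inner_apply]
    exact sum_congr rfl fun i _ => by simp [mul_comm]
  rw [this]

/-- the rounding of a frequency -/
noncomputable def rnd (R h : ℝ) (τ : E d) : Fin d → ℕ := fun i => ⌊(τ i + R) / h⌋₊

lemma rnd_mem {R h : ℝ} (hh : 0 < h) {τ : E d} (hτ : ‖τ‖ ≤ R) :
    rnd R h τ ∈ box d (⌊2 * R / h⌋₊ + 1) := by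
  unfold box
  rw [Fintype.mem_piFinset]
  intro i
  rw [mem_range, Nat.lt_succ_iff]
  refine Nat.floor_mono ?_
  have := (abs_le.1 ((coord_le_norm τ i).trans hτ)).2
  gcongr
  linarith

lemma rnd_close {R h : ℝ} (hh : 0 < h) {τ : E d} (hτ : ‖τ‖ ≤ R) (i : Fin d) :
    0 ≤ τ i + R - rnd R h τ i * h ∧ τ i + R - rnd R h τ i * h ≤ h := by
  have h0 : 0 ≤ (τ i + R) / h := by
    have := (abs_le.1 ((coord_le_norm τ i).trans hτ)).1
    have : 0 ≤ τ i + R := by linarith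
    positivity
  have h1 := Nat.floor_le h0
  have h2 := (Nat.lt_floor_add_one ((τ i + R) / h)).le
  rw [le_div_iff₀ hh] at h1
  rw [div_le_iff₀ hh] at h2
  unfold rnd
  constructor <;> nlinarith

lemma rnd_inj {R h : ℝ} (hh : 0 < h) (hd : (d + 1) * h < 1) {T : Finset (E d)}
    (hT : ∀ τ ∈ T, ‖τ‖ ≤ R) (hsep : ∀ τ ∈ T, ∀ τ' ∈ T, τ ≠ τ' → 1 ≤ ‖τ - τ'‖) :
    Set.InjOn (rnd R h) (T : Set (E d)) := by
  intro τ hτ τ' hτ' heq
  by_contra hne
  have h1 := hsep τ hτ τ' hτ' hne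
  have h2 : ‖τ - τ'‖ ≤ (d + 1) * h := by
    refine norm_le_of_coord hh.le fun i => ?_
    have a1 := rnd_close hh (hT τ hτ) i
    have a2 := rnd_close hh (hT τ' hτ') i
    rw [heq] at a1
    rw [PiLp.sub_apply, abs_le]
    constructor <;> linarith [a1.1, a1.2, a2.1, a2.2]
  linarith

lemma ee_approx {R h ρ : ℝ} (hh : 0 < h) {τ x : E d} (hτ : ‖τ‖ ≤ R) (hx : ‖x‖ ≤ ρ) :
    ‖ex (R * ∑ i, x i) * ee τ x - ex (∑ i, (rnd R h τ i : ℝ) * (h * x i))‖ ≤
      2 * Real.pi * (d * (h * ρ)) := by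
  rw [ee_eq_ex, ← ex_add]
  refine (norm_ex_sub_ex_le _ _).trans ?_
  gcongr
  have e : R * ∑ i, x i + ∑ i, τ i * x i - ∑ i, (rnd R h τ i : ℝ) * (h * x i) =
      ∑ i, (τ i + R - rnd R h τ i * h) * x i := by
    rw [mul_sum, ← sum_add_distrib, ← sum_sub_distrib]
    exact sum_congr rfl fun i _ => by ring
  rw [e]
  refine (abs_sum_le_sum_abs _ _).trans ?_
  calc ∑ i, |(τ i + R - rnd R h τ i * h) * x i| ≤ ∑ _i : Fin d, h * ρ := by
        refine sum_le_sum fun i _ => ?_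
        have a1 := rnd_close hh hτ i
        rw [abs_mul, abs_of_nonneg a1.1]
        exact mul_le_mul a1.2 ((coord_le_norm x i).trans hx) (abs_nonneg _) hh.le
    _ = d * (h * ρ) := by simp

/-- The points where the average of the exponentials with frequencies in `T` is at least `a` are
covered by a bounded number of arbitrarily small balls. -/
theorem exists_cover {ρ a c : ℝ} (hρ : 0 < ρ) (ha : 0 < a) (hc : 0 < c) :
    ∃ K : ℕ, ∀ δ : ℝ, 0 < δ → ∃ R₀ : ℝ, ∀ R : ℝ, R₀ ≤ R → ∀ T : Finset (E d),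
      (∀ τ ∈ T, ‖τ‖ ≤ R) → (∀ τ ∈ T, ∀ τ' ∈ T, τ ≠ τ' → 1 ≤ ‖τ - τ'‖) →
      c * R ^ d ≤ (T.card : ℝ) →
      ∃ J : Finset (E d), J.card ≤ K ∧ (∀ y ∈ J, ‖y‖ ≤ ρ) ∧
        ∀ x : E d, ‖x‖ ≤ ρ → a * T.card ≤ ‖∑ τ ∈ T, ee τ x‖ → ∃ y ∈ J, dist x y ≤ δ := by
  classical
  have hpi := Real.pi_pos
  have hd1 : (0 : ℝ) < (d : ℝ) + 1 := by positivity
  set h : ℝ := min (1 / (4 * ρ)) (min (1 / (2 * (d + 1))) (a / (4 * Real.pi * (d + 1) * ρ))) with hh
  have hh0 : 0 < h := by positivity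
  have hh1 : h ≤ 1 / (4 * ρ) := min_le_left _ _
  have hh2 : h ≤ 1 / (2 * (d + 1)) := (min_le_right _ _).trans (min_le_left _ _)
  have hh3 : h ≤ a / (4 * Real.pi * (d + 1) * ρ) := (min_le_right _ _).trans (min_le_right _ _)
  have hh1' : h * (4 * ρ) ≤ 1 := by rwa [le_div_iff₀ (by positivity)] at hh1
  have hh2' : ((d : ℝ) + 1) * h < 1 := by
    rw [le_div_iff₀ (by positivity)] at hh2
    linarith
  have hh3' : 2 * Real.pi * (d * (h * ρ)) ≤ a / 2 := by
    rw [le_div_iff₀ (by positivity)] at hh3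
    have : 2 * Real.pi * (d * (h * ρ)) ≤ 2 * Real.pi * ((d + 1) * (h * ρ)) := by
      gcongr
      linarith
    linarith
  set C : ℝ := (2 / h + 1) ^ d / c with hC
  have hC0 : 0 < C := by positivity
  refine ⟨⌊8 * C ^ 2 / a ^ 2⌋₊, fun δ hδ => ?_⟩
  set δ' : ℝ := δ / (d + 1) with hδ'
  have hδ'0 : 0 < δ' := by positivity
  set η : ℝ := h * δ' with hη
  have hη0 : 0 < η := by positivity
  refine ⟨max 1 (8 * C ^ 2 / (a ^ 2 * (2 * η)) * h), fun R hR T hTR hTs hTc => ?_⟩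
  have hR1 : 1 ≤ R := (le_max_left _ _).trans hR
  have hR2 : 8 * C ^ 2 / (a ^ 2 * (2 * η)) * h ≤ R := (le_max_right _ _).trans hR
  have hR0 : 0 < R := by linarith
  set m : ℕ := ⌊2 * R / h⌋₊ + 1 with hm
  have hm1 : (m : ℝ) ≤ (2 / h + 1) * R := by
    have := Nat.floor_le (show 0 ≤ 2 * R / h by positivity)
    rw [hm]
    push_cast
    calc (⌊2 * R / h⌋₊ : ℝ) + 1 ≤ 2 * R / h + R := by linarith
      _ = (2 / h + 1) * R := by ring
  have hm2 : 2 * R / h ≤ m := by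
    rw [hm]
    push_cast
    exact (Nat.lt_floor_add_one _).le
  have hm0 : (0 : ℝ) < m := lt_of_lt_of_le (by positivity) hm2
  have hT0 : (0 : ℝ) < T.card := lt_of_lt_of_le (by positivity) hTc
  have hmT : (m : ℝ) ^ d ≤ C * T.card := by
    calc (m : ℝ) ^ d ≤ ((2 / h + 1) * R) ^ d := by gcongr
      _ = C * (c * R ^ d) := by
          rw [hC, mul_pow]
          field_simp
      _ ≤ C * T.card := by gcongr
  have hηm : 4 * C ^ 2 ≤ (a / 2) ^ 2 * (2 * (2 * η * m)) := by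
    have e1 : 8 * C ^ 2 / (a ^ 2 * (2 * η)) ≤ m := by
      have : 8 * C ^ 2 / (a ^ 2 * (2 * η)) ≤ R / h := by
        rw [le_div_iff₀ hh0]
        exact hR2
      have h2 : R / h ≤ 2 * R / h := by
        gcongr
        linarith
      linarith
    rw [div_le_iff₀ (by positivity)] at e1
    nlinarith
  -- the approximating polynomial
  have hlarge : ∀ x : E d, ‖x‖ ≤ ρ → a * T.card ≤ ‖∑ τ ∈ T, ee τ x‖ →
      a / 2 * T.card ≤ ‖∑ k ∈ T.image (rnd R h), ex (∑ i, (k i : ℝ) * (h * x i))‖ := by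
    intro x hx hxT
    rw [sum_image (rnd_inj hh0 hh2' hTR hTs)]
    have e1 : ‖ex (R * ∑ i, x i) * ∑ τ ∈ T, ee τ x -
        ∑ τ ∈ T, ex (∑ i, (rnd R h τ i : ℝ) * (h * x i))‖ ≤ T.card * (a / 2) := by
      rw [mul_sum, ← sum_sub_distrib]
      refine (norm_sum_le _ _).trans ?_
      calc ∑ τ ∈ T, ‖ex (R * ∑ i, x i) * ee τ x - ex (∑ i, (rnd R h τ i : ℝ) * (h * x i))‖ ≤
            ∑ _τ ∈ T, a / 2 := sum_le_sum fun τ hτ => (ee_approx hh0 (hTR τ hτ) hx).trans hh3'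
        _ = T.card * (a / 2) := by simp
    have e2 : ‖ex (R * ∑ i, x i) * ∑ τ ∈ T, ee τ x‖ = ‖∑ τ ∈ T, ee τ x‖ := by
      rw [norm_mul, norm_ex, one_mul]
    have e3 := norm_sub_norm_le (ex (R * ∑ i, x i) * ∑ τ ∈ T, ee τ x)
      (∑ τ ∈ T, ex (∑ i, (rnd R h τ i : ℝ) * (h * x i)))
    rw [e2] at e3
    linarith
  have hB : T.image (rnd R h) ⊆ box d m := by
    intro k hk
    obtain ⟨τ, hτ, rfl⟩ := mem_image.1 hk
    exact rnd_mem hh0 (hTR τ hτ)
  set G : Set (E d) := {x | ‖x‖ ≤ ρ ∧ a * T.card ≤ ‖∑ τ ∈ T, ee τ x‖} with hG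
  obtain ⟨J, hJK, hJG, hJ⟩ := exists_net G (fun x y : E d => ∃ i, δ' ≤ |x i - y i|)
    (fun x y ⟨i, hi⟩ => ⟨i, by rwa [abs_sub_comm]⟩)
    (fun x ⟨i, hi⟩ => by
      rw [sub_self, abs_zero] at hi
      linarith) (K := ⌊8 * C ^ 2 / a ^ 2⌋₊) (by
    intro J hJG hJS
    rw [Nat.le_floor_iff (by positivity)]
    set sc : E d → Fin d → ℝ := fun x i => h * x i with hsc
    have hinj : Function.Injective sc := by
      intro x y hxy
      ext i
      have := congrFun hxy i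
      simp only [hsc] at this
      exact mul_left_cancel₀ hh0.ne' this
    have hcnt := count_large hB (J := J.image sc) (η := η) (b := a / 2 * T.card) hη0 (by positivity)
      (by
        intro y hy y' hy' i
        obtain ⟨x, hx, rfl⟩ := mem_image.1 hy
        obtain ⟨x', hx', rfl⟩ := mem_image.1 hy'
        simp only [hsc]
        rw [← mul_sub, abs_mul, abs_of_pos hh0]
        have b1 := (coord_le_norm x i).trans (hJG x hx).1
        have b2 := (coord_le_norm x' i).trans (hJG x' hx').1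
        have b3 : |x i - x' i| ≤ 2 * ρ := by
          refine (abs_sub _ _).trans ?_
          linarith
        calc h * |x i - x' i| ≤ h * (2 * ρ) := by gcongr
          _ ≤ 1 / 2 := by linarith)
      (by
        intro y hy y' hy' hne
        obtain ⟨x, hx, rfl⟩ := mem_image.1 hy
        obtain ⟨x', hx', rfl⟩ := mem_image.1 hy'
        obtain ⟨i, hi⟩ := hJS x hx x' hx' (fun e => hne (by rw [e]))
        refine ⟨i, ?_⟩
        simp only [hsc]
        rw [← mul_sub, abs_mul, abs_of_pos hh0, hη]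
        gcongr)
      (by
        intro y hy
        obtain ⟨x, hx, rfl⟩ := mem_image.1 hy
        exact hlarge x (hJG x hx).1 (hJG x hx).2)
    rw [card_image_of_injective _ hinj] at hcnt
    rcases Nat.eq_zero_or_pos J.card with hJ0 | hJ0
    · rw [hJ0, Nat.cast_zero]
      positivity
    have hJ0' : (0 : ℝ) < J.card := by exact_mod_cast hJ0
    set w : ℝ := 2 * η * m with hw
    have hw0 : 0 < w := by positivity
    have hcnt2 : (J.card : ℝ) * (a / 2) ^ 2 * w ≤ C ^ 2 * (w + J.card) := by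
      have i1 : ((J.card : ℝ) * (a / 2 * T.card)) ^ 2 * w ≤
          (C * T.card) ^ 2 * (J.card * w + J.card ^ 2) := by
        refine hcnt.trans ?_
        gcongr
      have i2 : ((J.card : ℝ) * T.card ^ 2) * (J.card * (a / 2) ^ 2 * w) ≤
          ((J.card : ℝ) * T.card ^ 2) * (C ^ 2 * (w + J.card)) := by
        calc _ = ((J.card : ℝ) * (a / 2 * T.card)) ^ 2 * w := by ring
          _ ≤ _ := i1
          _ = _ := by ring
      exact le_of_mul_le_mul_left i2 (by positivity)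
    rw [le_div_iff₀ (by positivity)]
    have i3 : C ^ 2 * (J.card : ℝ) ≤ (a / 2) ^ 2 * (2 * w) / 4 * J.card := by
      have : C ^ 2 ≤ (a / 2) ^ 2 * (2 * w) / 4 := by linarith
      gcongr
    have i4 : (J.card : ℝ) * (a / 2) ^ 2 * w / 2 ≤ C ^ 2 * w := by nlinarith
    have i5 : ((J.card : ℝ) * (a / 2) ^ 2 / 2) * w ≤ C ^ 2 * w := by linarith
    have i6 := le_of_mul_le_mul_right i5 hw0
    linarith)
  refine ⟨J, hJK, fun y hy => (hJG y hy).1, fun x hx hxT => ?_⟩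
  obtain ⟨y, hy, hxy⟩ := hJ x ⟨hx, hxT⟩
  push Not at hxy
  refine ⟨y, hy, ?_⟩
  rw [dist_eq_norm]
  have := norm_le_of_coord (v := x - y) hδ'0.le fun i => by
    rw [PiLp.sub_apply]
    exact (hxy i).le
  refine this.trans (le_of_eq ?_)
  rw [hδ']
  field_simp

end Pool.Agent.SpecND
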