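import Mathlib

/-!
# Dirichlet kernels and a counting lemma for large values of trigonometric sums
-/

set_option autoImplicit false

open Finset
open scoped ComplexConjugate

namespace Pool.Agent.SpecND

/-- `e θ = exp (2 π i θ)` -/
noncomputable def ex (θ : ℝ) : ℂ := Complex.exp (((2 * Real.pi * θ : ℝ) : ℂ) * Complex.I)

lemma norm_ex (θ : ℝ) : ‖ex θ‖ = 1 := Complex.norm_exp_ofReal_mul_I _

lemma ex_add (a b : ℝ) : ex (a + b) = ex a * ex b := by
  unfold ex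
  rw [← Complex.exp_add]
  congr 1
  push_cast
  ring

lemma ex_neg (a : ℝ) : ex (-a) = conj (ex a) := by
  unfold ex
  rw [← Complex.exp_conj, map_mul, Complex.conj_I, Complex.conj_ofReal]
  congr 1
  push_cast
  ring

lemma ex_sum {ι : Type*} (s : Finset ι) (f : ι → ℝ) : ex (∑ i ∈ s, f i) = ∏ i ∈ s, ex (f i) := by
  unfold ex
  rw [← Complex.exp_sum]
  congr 1
  push_cast
  rw [Finset.mul_sum, Finset.sum_mul]

lemma norm_ex_sub_one_le (θ : ℝ) : ‖ex θ - 1‖ ≤ 2 * Real.pi * |θ| := by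
  unfold ex
  rw [mul_comm _ Complex.I]
  refine Real.norm_exp_I_mul_ofReal_sub_one_le.trans (le_of_eq ?_)
  rw [Real.norm_eq_abs, abs_mul, abs_of_pos Real.two_pi_pos]

lemma norm_ex_sub_ex_le (a b : ℝ) : ‖ex a - ex b‖ ≤ 2 * Real.pi * |a - b| := by
  have h : ex a = ex (a - b) * ex b := by rw [← ex_add, sub_add_cancel]
  rw [h, ← sub_one_mul, norm_mul, norm_ex, mul_one]
  exact norm_ex_sub_one_le _

lemma four_mul_le_norm_ex_sub_one {θ : ℝ} (h : |θ| ≤ 1 / 2) : 4 * |θ| ≤ ‖ex θ - 1‖ := by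
  unfold ex
  rw [mul_comm _ Complex.I, Complex.norm_exp_I_mul_ofReal_sub_one, Real.norm_eq_abs, abs_mul,
    abs_of_pos (by norm_num : (0 : ℝ) < 2)]
  have h1 : |2 * Real.pi * θ / 2| ≤ Real.pi / 2 := by
    rw [show 2 * Real.pi * θ / 2 = Real.pi * θ by ring, abs_mul, abs_of_pos Real.pi_pos]
    nlinarith [Real.pi_pos]
  have h2 := Real.mul_abs_le_abs_sin h1
  have h3 : 2 / Real.pi * |2 * Real.pi * θ / 2| = 2 * |θ| := by
    rw [show 2 * Real.pi * θ / 2 = Real.pi * θ by ring, abs_mul, abs_of_pos Real.pi_pos]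
    field_simp
  linarith

lemma ex_nat_mul (k : ℕ) (θ : ℝ) : ex (k * θ) = ex θ ^ k := by
  unfold ex
  rw [← Complex.exp_nat_mul]
  congr 1
  push_cast
  ring

/-- the Dirichlet kernel -/
lemma dirichlet_bound {m : ℕ} {θ : ℝ} (h0 : θ ≠ 0) (h1 : |θ| ≤ 1 / 2) :
    ‖∑ k ∈ range m, ex (k * θ)‖ ≤ 1 / (2 * |θ|) := by
  have hpos : 0 < |θ| := abs_pos.2 h0
  have h4 := four_mul_le_norm_ex_sub_one h1
  have hne : ex θ ≠ 1 := by
    intro h
    rw [h, sub_self, norm_zero] at h4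
    linarith
  simp_rw [ex_nat_mul]
  rw [geom_sum_eq hne, norm_div]
  have h5 : ‖ex θ ^ m - 1‖ ≤ 2 := by
    refine (norm_sub_le _ _).trans ?_
    rw [norm_pow, norm_ex, one_pow, norm_one]
    norm_num
  calc ‖ex θ ^ m - 1‖ / ‖ex θ - 1‖ ≤ 2 / (4 * |θ|) := by gcongr
    _ = 1 / (2 * |θ|) := by
      field_simp
      norm_num

variable {d : ℕ}

/-- the box `{0, ..., m - 1}^d` -/
def box (d m : ℕ) : Finset (Fin d → ℕ) := Fintype.piFinset fun _ => range m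

lemma card_box (d m : ℕ) : (box d m).card = m ^ d := by
  simp [box, Fintype.card_piFinset]

lemma box_sum (m : ℕ) (y : Fin d → ℝ) :
    ∑ k ∈ box d m, ex (∑ i, (k i : ℝ) * y i) = ∏ i, ∑ k ∈ range m, ex (k * y i) := by
  unfold box
  rw [prod_univ_sum]
  exact sum_congr rfl fun k _ => ex_sum _ _

/-- the multidimensional Dirichlet kernel -/
lemma box_bound {m : ℕ} {y : Fin d → ℝ} {η : ℝ} (hη : 0 < η)
    (h1 : ∀ i, |y i| ≤ 1 / 2) (h2 : ∃ i, η ≤ |y i|) :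
    ‖∑ k ∈ box d m, ex (∑ i, (k i : ℝ) * y i)‖ * (2 * η * m) ≤ m ^ d := by
  obtain ⟨i₀, hi₀⟩ := h2
  rw [box_sum, ← mul_prod_erase univ _ (mem_univ i₀), norm_mul]
  have ha : ‖∑ k ∈ range m, ex (k * y i₀)‖ ≤ 1 / (2 * η) := by
    have h0 : y i₀ ≠ 0 := by
      intro h
      rw [h, abs_zero] at hi₀
      linarith
    refine (dirichlet_bound h0 (h1 i₀)).trans ?_
    gcongr
  have hb : ‖∏ i ∈ univ.erase i₀, ∑ k ∈ range m, ex (k * y i)‖ ≤ (m : ℝ) ^ (d - 1) := by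
    rw [norm_prod]
    calc ∏ i ∈ univ.erase i₀, ‖∑ k ∈ range m, ex (k * y i)‖ ≤ ∏ _i ∈ univ.erase i₀, (m : ℝ) := by
          refine prod_le_prod (fun _ _ => norm_nonneg _) fun i _ => ?_
          refine (norm_sum_le _ _).trans ?_
          simp [norm_ex]
      _ = (m : ℝ) ^ (d - 1) := by
          rw [prod_const, card_erase_of_mem (mem_univ _), card_univ, Fintype.card_fin]
  have hd : 1 ≤ d := i₀.pos
  calc ‖∑ k ∈ range m, ex (k * y i₀)‖ * ‖∏ i ∈ univ.erase i₀, ∑ k ∈ range m, ex (k * y i)‖ *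
        (2 * η * m) ≤ 1 / (2 * η) * (m : ℝ) ^ (d - 1) * (2 * η * m) := by gcongr
    _ = (m : ℝ) ^ (d - 1) * m := by field_simp
    _ = (m : ℝ) ^ d := by rw [← pow_succ, Nat.sub_add_cancel hd]

/-- Counting lemma: a trigonometric polynomial with coefficients `0` or `1` on the box `m^d` is
large at few separated points. -/
theorem count_large {m : ℕ} {B : Finset (Fin d → ℕ)} (hB : B ⊆ box d m)
    {J : Finset (Fin d → ℝ)} {η b : ℝ} (hη : 0 < η) (hb : 0 ≤ b)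
    (h1 : ∀ y ∈ J, ∀ y' ∈ J, ∀ i, |y i - y' i| ≤ 1 / 2)
    (h2 : ∀ y ∈ J, ∀ y' ∈ J, y ≠ y' → ∃ i, η ≤ |y i - y' i|)
    (h3 : ∀ y ∈ J, b ≤ ‖∑ k ∈ B, ex (∑ i, (k i : ℝ) * y i)‖) :
    (J.card * b) ^ 2 * (2 * η * m) ≤ (m ^ d) ^ 2 * (J.card * (2 * η * m) + J.card ^ 2) := by
  classical
  set D : (Fin d → ℝ) → (Fin d → ℕ) → ℂ := fun y k => ex (∑ i, (k i : ℝ) * y i) with hD
  -- phases
  have hph : ∀ z : ℂ, ∃ θ : ℂ, ‖θ‖ ≤ 1 ∧ θ * z = (‖z‖ : ℂ) := by
    intro z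
    by_cases hz : z = 0
    · exact ⟨0, by simp, by simp [hz]⟩
    · refine ⟨conj z / ‖z‖, ?_, ?_⟩
      · rw [norm_div, RCLike.norm_conj, Complex.norm_real, norm_norm, div_self (norm_ne_zero_iff.2 hz)]
      · rw [div_mul_eq_mul_div, Complex.conj_mul', sq, mul_div_assoc, div_self, mul_one]
        exact_mod_cast norm_ne_zero_iff.2 hz
  choose φ hφ1 hφ2 using hph
  set θ : (Fin d → ℝ) → ℂ := fun y => φ (∑ k ∈ B, D y k) with hθ
  set g : (Fin d → ℕ) → ℂ := fun k => ∑ y ∈ J, θ y * D y k with hg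
  -- first inequality
  have s1 : (J.card : ℝ) * b ≤ ∑ k ∈ box d m, ‖g k‖ := by
    calc (J.card : ℝ) * b = ∑ _y ∈ J, b := by rw [sum_const, nsmul_eq_mul]
      _ ≤ ∑ y ∈ J, ‖∑ k ∈ B, D y k‖ := sum_le_sum h3
      _ = ‖(∑ y ∈ J, (‖∑ k ∈ B, D y k‖ : ℂ))‖ := by
          rw [← Complex.ofReal_sum, Complex.norm_real, Real.norm_of_nonneg]
          positivity
      _ = ‖∑ k ∈ B, g k‖ := by
          congr 1
          rw [hg, sum_comm]
          refine sum_congr rfl fun y _ => ?_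
          rw [← mul_sum]
          exact (hφ2 _).symm
      _ ≤ ∑ k ∈ B, ‖g k‖ := norm_sum_le _ _
      _ ≤ ∑ k ∈ box d m, ‖g k‖ := sum_le_sum_of_subset_of_nonneg hB fun _ _ _ => norm_nonneg _
  -- second moment
  have s2 : (∑ k ∈ box d m, ‖g k‖) ^ 2 ≤ (m : ℝ) ^ d * ∑ k ∈ box d m, ‖g k‖ ^ 2 := by
    have := sq_sum_le_card_mul_sum_sq (s := box d m) (f := fun k => ‖g k‖)
    rwa [card_box, Nat.cast_pow] at this
  have hDD : ∀ y y' k, D y k * conj (D y' k) = ex (∑ i, (k i : ℝ) * (y i - y' i)) := by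
    intro y y' k
    simp only [hD]
    rw [← ex_neg, ← ex_add, ← sum_neg_distrib, ← sum_add_distrib]
    congr 1
    refine sum_congr rfl fun i _ => ?_
    ring
  have s3 : ((∑ k ∈ box d m, ‖g k‖ ^ 2 : ℝ) : ℂ) =
      ∑ y ∈ J, ∑ y' ∈ J, θ y * conj (θ y') *
        ∑ k ∈ box d m, ex (∑ i, (k i : ℝ) * (y i - y' i)) := by
    push_cast
    calc ∑ k ∈ box d m, (‖g k‖ : ℂ) ^ 2 = ∑ k ∈ box d m, ∑ y ∈ J, ∑ y' ∈ J,
          θ y * conj (θ y') * ex (∑ i, (k i : ℝ) * (y i - y' i)) := by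
          refine sum_congr rfl fun k _ => ?_
          rw [← Complex.mul_conj', hg, map_sum, sum_mul_sum]
          refine sum_congr rfl fun y _ => sum_congr rfl fun y' _ => ?_
          rw [map_mul, ← hDD]
          ring
      _ = _ := by
          rw [sum_comm]
          refine sum_congr rfl fun y _ => ?_
          rw [sum_comm]
          refine sum_congr rfl fun y' _ => ?_
          rw [mul_sum]
  have s4 : (∑ k ∈ box d m, ‖g k‖ ^ 2) * (2 * η * m) ≤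
      (J.card * (2 * η * m) + J.card ^ 2) * (m : ℝ) ^ d := by
    have e1 : ∑ k ∈ box d m, ‖g k‖ ^ 2 = ‖((∑ k ∈ box d m, ‖g k‖ ^ 2 : ℝ) : ℂ)‖ := by
      rw [Complex.norm_real, Real.norm_of_nonneg]
      positivity
    have e2 : ∑ k ∈ box d m, ‖g k‖ ^ 2 ≤ ∑ y ∈ J, ∑ y' ∈ J,
        ‖∑ k ∈ box d m, ex (∑ i, (k i : ℝ) * (y i - y' i))‖ := by
      rw [e1, s3]
      refine (norm_sum_le _ _).trans (sum_le_sum fun y _ => (norm_sum_le _ _).trans
        (sum_le_sum fun y' _ => ?_))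
      rw [norm_mul, norm_mul, RCLike.norm_conj]
      have := mul_le_one₀ (hφ1 (∑ k ∈ B, D y k)) (norm_nonneg _) (hφ1 (∑ k ∈ B, D y' k))
      calc _ ≤ 1 * ‖∑ k ∈ box d m, ex (∑ i, (k i : ℝ) * (y i - y' i))‖ := by gcongr
        _ = _ := one_mul _
    have e3 : ∀ y ∈ J, ∀ y' ∈ J,
        ‖∑ k ∈ box d m, ex (∑ i, (k i : ℝ) * (y i - y' i))‖ * (2 * η * m) ≤
          (if y = y' then (2 * η * m) else 0) * (m : ℝ) ^ d + (m : ℝ) ^ d := by
      intro y hy y' hy'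
      by_cases hyy : y = y'
      · subst hyy
        simp only [sub_self, mul_zero, sum_const_zero, if_true]
        have h0 : ex 0 = 1 := by simp [ex]
        rw [h0, sum_const, card_box, nsmul_eq_mul, mul_one]
        push_cast
        rw [norm_pow, Complex.norm_natCast]
        have : (0 : ℝ) ≤ (m : ℝ) ^ d := by positivity
        linarith
      · rw [if_neg hyy, zero_mul, zero_add]
        exact box_bound hη (h1 y hy y' hy') (h2 y hy y' hy' hyy)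
    calc (∑ k ∈ box d m, ‖g k‖ ^ 2) * (2 * η * m) ≤ (∑ y ∈ J, ∑ y' ∈ J,
          ‖∑ k ∈ box d m, ex (∑ i, (k i : ℝ) * (y i - y' i))‖) * (2 * η * m) := by gcongr
      _ = ∑ y ∈ J, ∑ y' ∈ J,
          ‖∑ k ∈ box d m, ex (∑ i, (k i : ℝ) * (y i - y' i))‖ * (2 * η * m) := by
          rw [sum_mul]
          exact sum_congr rfl fun y _ => sum_mul _ _ _
      _ ≤ ∑ y ∈ J, ∑ y' ∈ J, ((if y = y' then (2 * η * m) else 0) * (m : ℝ) ^ d + (m : ℝ) ^ d) :=
          sum_le_sum fun y hy => sum_le_sum fun y' hy' => e3 y hy y' hy'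
      _ = (J.card * (2 * η * m) + J.card ^ 2) * (m : ℝ) ^ d := by
          have : ∀ y ∈ J, ∑ y' ∈ J, ((if y = y' then (2 * η * m) else 0) * (m : ℝ) ^ d +
              (m : ℝ) ^ d) = (2 * η * m) * (m : ℝ) ^ d + J.card * (m : ℝ) ^ d := by
            intro y hy
            rw [sum_add_distrib, ← sum_mul, sum_ite_eq, if_pos hy, sum_const, nsmul_eq_mul]
          rw [sum_congr rfl this, sum_const, nsmul_eq_mul]
          ring
  have hJb : 0 ≤ (J.card : ℝ) * b := by positivity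
  calc ((J.card : ℝ) * b) ^ 2 * (2 * η * m) ≤ (∑ k ∈ box d m, ‖g k‖) ^ 2 * (2 * η * m) := by
        gcongr
    _ ≤ ((m : ℝ) ^ d * ∑ k ∈ box d m, ‖g k‖ ^ 2) * (2 * η * m) := by gcongr
    _ = (m : ℝ) ^ d * ((∑ k ∈ box d m, ‖g k‖ ^ 2) * (2 * η * m)) := by ring
    _ ≤ (m : ℝ) ^ d * ((J.card * (2 * η * m) + J.card ^ 2) * (m : ℝ) ^ d) := by gcongr
    _ = _ := by ring

end Pool.Agent.SpecND
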