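import Pool.Agent.Lib.MP_53fa4a_an.Appr

/-!
# The mass of an almost period on the translates of `Ω`
-/

set_option autoImplicit false

open MeasureTheory Set Filter
open scoped ENNReal Topology ComplexConjugate

namespace Pool.Agent.SpecND

variable {d : ℕ}

lemma ee_add_left (l m x : E d) : ee (l + m) x = ee l x * ee m x := by
  unfold ee
  rw [← Complex.exp_add, inner_add_left]
  congr 1
  push_cast
  ring

lemma integrable_of_cont {Ω : Set (E d)} (hfin : volume Ω ≠ ∞) {f : E d → ℂ} (hf : Continuous f)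
    {C : ℝ} (hC : ∀ x, ‖f x‖ ≤ C) : IntegrableOn f Ω volume := by
  have : IsFiniteMeasure (volume.restrict Ω) :=
    ⟨by rwa [Measure.restrict_apply_univ, lt_top_iff_ne_top]⟩
  exact Integrable.of_bound hf.aestronglyMeasurable C (Eventually.of_forall hC)

/-- the sum of the exponentials with frequencies in `A + σ`, on the translate by `t` -/
noncomputable def gs (A : Finset (E d)) (σ t x : E d) : ℂ := ∑ l ∈ A, ee (l + σ) (x + t)

lemma continuous_gs (A : Finset (E d)) (σ t : E d) : Continuous (gs A σ t) := by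
  unfold gs
  exact continuous_finsetSum _ fun l _ => (continuous_ee _).comp (continuous_id.add continuous_const)

lemma norm_gs_le (A : Finset (E d)) (σ t x : E d) : ‖gs A σ t x‖ ≤ A.card := by
  unfold gs
  refine (norm_sum_le _ _).trans (le_of_eq ?_)
  simp [norm_ee]

/-- orthogonality on the translates -/
lemma integral_gs {Ω : Set (E d)} (hfin : volume Ω ≠ ∞) {F : Finset (E d)} [DecidableEq (E d)]
    (horth : ∀ l ∈ F, ∀ l' ∈ F, l ≠ l' → ∫ x in Ω, ee l x * conj (ee l' x) = 0)
    {A B : Finset (E d)} (hA : A ⊆ F) (hB : B ⊆ F) (σ t : E d) :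
    ∫ x in Ω, gs A σ t x * conj (gs B σ t x) = ((A ∩ B).card * volume.real Ω : ℝ) := by
  have e1 : ∀ x, gs A σ t x * conj (gs B σ t x) =
      ∑ l ∈ A, ∑ m ∈ B, ee l t * conj (ee m t) * (ee l x * conj (ee m x)) := by
    intro x
    unfold gs
    rw [map_sum, Finset.sum_mul_sum]
    refine Finset.sum_congr rfl fun l _ => Finset.sum_congr rfl fun m _ => ?_
    rw [ee_add_left, ee_add_left, ee_add l x t, ee_add m x t, map_mul, map_mul]
    have := ee_mul_conj σ (x + t)
    calc _ = (ee σ (x + t) * conj (ee σ (x + t))) *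
          (ee l t * ee l x * (conj (ee m t) * conj (ee m x))) := by ring
      _ = _ := by
          rw [this]
          ring
  have hint : ∀ l m : E d, IntegrableOn (fun x => ee l x * conj (ee m x)) Ω volume := by
    intro l m
    refine integrable_of_cont hfin ((continuous_ee l).mul
      (Complex.continuous_conj.comp (continuous_ee m))) (C := 1) fun x => ?_
    rw [norm_mul, RCLike.norm_conj, norm_ee, norm_ee, one_mul]
  simp_rw [e1]
  rw [integral_finsetSum _ fun l _ => integrable_finsetSum _ fun m _ => (hint l m).const_mul _]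
  have e2 : ∀ l ∈ A, ∫ x in Ω, ∑ m ∈ B, ee l t * conj (ee m t) * (ee l x * conj (ee m x)) =
      if l ∈ B then (volume.real Ω : ℂ) else 0 := by
    intro l hl
    rw [integral_finsetSum _ fun m _ => (hint l m).const_mul _]
    have e3 : ∀ m ∈ B, ∫ x in Ω, ee l t * conj (ee m t) * (ee l x * conj (ee m x)) =
        if l = m then (volume.real Ω : ℂ) else 0 := by
      intro m hm
      rw [integral_const_mul]
      split_ifs with h
      · subst h
        simp_rw [ee_mul_conj]
        rw [one_mul, setIntegral_const]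
        simp
      · rw [horth l (hA hl) m (hB hm) h, mul_zero]
    rw [Finset.sum_congr rfl e3, Finset.sum_ite_eq]
  rw [Finset.sum_congr rfl e2, ← Finset.sum_filter, Finset.filter_mem_eq_inter, Finset.sum_const,
    nsmul_eq_mul]
  push_cast
  rfl

lemma integral_norm_gs {Ω : Set (E d)} (hfin : volume Ω ≠ ∞) {F : Finset (E d)}
    (horth : ∀ l ∈ F, ∀ l' ∈ F, l ≠ l' → ∫ x in Ω, ee l x * conj (ee l' x) = 0)
    {A : Finset (E d)} (hA : A ⊆ F) (σ t : E d) :
    ∫ x in Ω, ‖gs A σ t x‖ ^ 2 = A.card * volume.real Ω := by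
  classical
  have h := integral_gs hfin horth hA hA σ t
  rw [Finset.inter_self] at h
  have e1 : ∀ x, gs A σ t x * conj (gs A σ t x) = ((‖gs A σ t x‖ ^ 2 : ℝ) : ℂ) := by
    intro x
    rw [Complex.mul_conj']
    push_cast
    rfl
  simp_rw [e1] at h
  rw [integral_complex_ofReal] at h
  exact_mod_cast h

/-- The mass of an almost period: if most of `F` is mapped into `F` by the translation by `τ`, then
`ee τ` is mostly near `1` on every translate of `Ω`, in mean for the weight `|∑_{l ∈ F} ee l|²`. -/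
theorem mass_shift {Ω : Set (E d)} (hfin : volume Ω ≠ ∞) {F : Finset (E d)} [DecidableEq (E d)]
    (horth : ∀ l ∈ F, ∀ l' ∈ F, l ≠ l' → ∫ x in Ω, ee l x * conj (ee l' x) = 0) (τ t : E d) :
    (2 * ((F.filter fun l => l + τ ∈ F).card : ℝ) - F.card) * volume.real Ω ≤
      (∫ x in Ω, ee τ (x + t) * ((‖gs F 0 t x‖ ^ 2 : ℝ) : ℂ)).re := by
  set P := F.filter fun l => l + τ ∈ F with hP
  set N := F.filter fun l => ¬ (l + τ ∈ F) with hN
  set Q := F.filter fun l => l - τ ∈ F with hQ
  set M := F.filter fun l => ¬ (l - τ ∈ F) with hM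
  have hPF : P ⊆ F := Finset.filter_subset _ _
  have hNF : N ⊆ F := Finset.filter_subset _ _
  have hQF : Q ⊆ F := Finset.filter_subset _ _
  have hMF : M ⊆ F := Finset.filter_subset _ _
  have hPN : P ∩ N = ∅ := by
    rw [hP, hN, ← Finset.disjoint_iff_inter_eq_empty]
    exact Finset.disjoint_filter_filter_not _ _ _
  have hQM : Q ∩ M = ∅ := by
    rw [hQ, hM, ← Finset.disjoint_iff_inter_eq_empty]
    exact Finset.disjoint_filter_filter_not _ _ _
  have hQP : Q = P.map (addRightEmbedding τ) := by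
    ext l
    simp only [hQ, hP, Finset.mem_filter, Finset.mem_map, addRightEmbedding_apply]
    constructor
    · rintro ⟨h1, h2⟩
      exact ⟨l - τ, ⟨h2, by rwa [sub_add_cancel]⟩, sub_add_cancel _ _⟩
    · rintro ⟨m, ⟨h1, h2⟩, rfl⟩
      exact ⟨h2, by rwa [add_sub_cancel_right]⟩
  have hcQ : Q.card = P.card := by rw [hQP, Finset.card_map]
  have hcN : (P.card : ℝ) + N.card = F.card := by
    exact_mod_cast Finset.card_filter_add_card_filter_not (s := F) fun l => l + τ ∈ F
  have hcM : (Q.card : ℝ) + M.card = F.card := by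
    exact_mod_cast Finset.card_filter_add_card_filter_not (s := F) fun l => l - τ ∈ F
  set V := volume.real Ω with hV
  have hV0 : 0 ≤ V := measureReal_nonneg
  -- decompositions
  have d0 : ∀ x, gs P τ t x = gs Q 0 t x := by
    intro x
    unfold gs
    rw [hQP, Finset.sum_map]
    refine Finset.sum_congr rfl fun l _ => ?_
    rw [addRightEmbedding_apply, add_zero]
  have d1 : ∀ x, ee τ (x + t) * gs F 0 t x = gs P τ t x + gs N τ t x := by
    intro x
    unfold gs
    rw [hP, hN, Finset.sum_filter_add_sum_filter_not, Finset.mul_sum]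
    refine Finset.sum_congr rfl fun l _ => ?_
    rw [add_zero, ee_add_left, mul_comm]
  have d2 : ∀ x, gs F 0 t x = gs Q 0 t x + gs M 0 t x := by
    intro x
    unfold gs
    rw [hQ, hM, Finset.sum_filter_add_sum_filter_not]
  have d3 : ∀ x, ee τ (x + t) * ((‖gs F 0 t x‖ ^ 2 : ℝ) : ℂ) =
      (gs P τ t x * conj (gs P τ t x) + gs Q 0 t x * conj (gs M 0 t x)) +
        (gs N τ t x * conj (gs P τ t x) + gs N τ t x * conj (gs M 0 t x)) := by
    intro x
    push_cast
    rw [← Complex.mul_conj', ← mul_assoc, d1, d2, map_add, ← d0]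
    ring
  have hi : ∀ (A B : Finset (E d)) (σ σ' : E d),
      IntegrableOn (fun x => gs A σ t x * conj (gs B σ' t x)) Ω volume := by
    intro A B σ σ'
    refine integrable_of_cont hfin ((continuous_gs A σ t).mul
      (Complex.continuous_conj.comp (continuous_gs B σ' t))) (C := A.card * B.card) fun x => ?_
    rw [norm_mul, RCLike.norm_conj]
    exact mul_le_mul (norm_gs_le _ _ _ _) (norm_gs_le _ _ _ _) (norm_nonneg _) (Nat.cast_nonneg _)
  have i1 : ∫ x in Ω, gs P τ t x * conj (gs P τ t x) = (P.card * V : ℝ) := by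
    rw [integral_gs hfin horth hPF hPF, Finset.inter_self]
  have i2 : ∫ x in Ω, gs Q 0 t x * conj (gs M 0 t x) = 0 := by
    rw [integral_gs hfin horth hQF hMF, hQM]
    simp
  have i3 : ∫ x in Ω, gs N τ t x * conj (gs P τ t x) = 0 := by
    rw [integral_gs hfin horth hNF hPF, Finset.inter_comm, hPN]
    simp
  have i4 : ‖∫ x in Ω, gs N τ t x * conj (gs M 0 t x)‖ ≤ N.card * V := by
    have hin : IntegrableOn (fun x => ‖gs N τ t x‖ ^ 2) Ω volume := by
      have := (hi N N τ τ).norm
      refine this.congr (Eventually.of_forall fun x => ?_)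
      simp only [norm_mul, RCLike.norm_conj]
      ring
    have him : IntegrableOn (fun x => ‖gs M 0 t x‖ ^ 2) Ω volume := by
      have := (hi M M 0 0).norm
      refine this.congr (Eventually.of_forall fun x => ?_)
      simp only [norm_mul, RCLike.norm_conj]
      ring
    calc ‖∫ x in Ω, gs N τ t x * conj (gs M 0 t x)‖ ≤
          ∫ x in Ω, ‖gs N τ t x * conj (gs M 0 t x)‖ := norm_integral_le_integral_norm _
      _ ≤ ∫ x in Ω, (1 / 2 * ‖gs N τ t x‖ ^ 2 + 1 / 2 * ‖gs M 0 t x‖ ^ 2) := by
          refine integral_mono (hi N M τ 0).norm ((hin.const_mul _).add (him.const_mul _))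
            fun x => ?_
          simp only [norm_mul, RCLike.norm_conj]
          nlinarith [sq_nonneg (‖gs N τ t x‖ - ‖gs M 0 t x‖)]
      _ = N.card * V := by
          rw [integral_add (hin.const_mul _) (him.const_mul _), integral_const_mul,
            integral_const_mul, integral_norm_gs hfin horth hNF, integral_norm_gs hfin horth hMF]
          have : (M.card : ℝ) = N.card := by
            rw [hcQ] at hcM
            linarith
          rw [this]
          ring
  have i5 : ∫ x in Ω, ee τ (x + t) * ((‖gs F 0 t x‖ ^ 2 : ℝ) : ℂ) =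
      (P.card * V : ℝ) + ∫ x in Ω, gs N τ t x * conj (gs M 0 t x) := by
    simp_rw [d3]
    have j1 : IntegrableOn (fun x => gs P τ t x * conj (gs P τ t x) +
        gs Q 0 t x * conj (gs M 0 t x)) Ω volume := (hi _ _ _ _).add (hi _ _ _ _)
    have j2 : IntegrableOn (fun x => gs N τ t x * conj (gs P τ t x) +
        gs N τ t x * conj (gs M 0 t x)) Ω volume := (hi _ _ _ _).add (hi _ _ _ _)
    rw [integral_add j1 j2, integral_add (hi _ _ _ _) (hi _ _ _ _),
      integral_add (hi _ _ _ _) (hi _ _ _ _), i1, i2, i3, add_zero, zero_add]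
  rw [i5, Complex.add_re, Complex.ofReal_re]
  have i6 := (Complex.abs_re_le_norm (∫ x in Ω, gs N τ t x * conj (gs M 0 t x))).trans i4
  have i7 := (abs_le.1 i6).1
  have : (2 * (P.card : ℝ) - F.card) * V = P.card * V - N.card * V := by
    rw [← hcN]
    ring
  linarith

/-- Every translate of `Ω` contains a point where the average of the exponentials of the almost
periods is large. -/
theorem exists_large {Ω : Set (E d)} (hm : MeasurableSet Ω) (hfin : volume Ω ≠ ∞)
    (hpos : volume Ω ≠ 0) {F : Finset (E d)} [DecidableEq (E d)] (hF : F.Nonempty)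
    (horth : ∀ l ∈ F, ∀ l' ∈ F, l ≠ l' → ∫ x in Ω, ee l x * conj (ee l' x) = 0)
    {ε a : ℝ} (ha : a < 1 - 2 * ε) {T : Finset (E d)} (hT : T.Nonempty)
    (hTF : ∀ τ ∈ T, (1 - ε) * F.card ≤ ((F.filter fun l => l + τ ∈ F).card : ℝ)) (t : E d) :
    ∃ x ∈ Ω, a * T.card ≤ ‖∑ τ ∈ T, ee τ (x + t)‖ := by
  by_contra hcon
  push Not at hcon
  have hV : 0 < volume.real Ω := ENNReal.toReal_pos hpos hfin
  have hFc : (0 : ℝ) < F.card := by exact_mod_cast hF.card_pos
  have hTc : (0 : ℝ) < T.card := by exact_mod_cast hT.card_pos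
  have hi : ∀ τ : E d, IntegrableOn (fun x => ee τ (x + t) * ((‖gs F 0 t x‖ ^ 2 : ℝ) : ℂ)) Ω
      volume := by
    intro τ
    refine integrable_of_cont hfin (((continuous_ee τ).comp (continuous_id.add
      continuous_const)).mul (Complex.continuous_ofReal.comp ((continuous_gs F 0 t).norm.pow 2)))
      (C := (F.card : ℝ) ^ 2) fun x => ?_
    rw [norm_mul, norm_ee, one_mul, Complex.norm_real, Real.norm_of_nonneg (by positivity)]
    exact pow_le_pow_left₀ (norm_nonneg _) (norm_gs_le _ _ _ _) 2
  have hin : IntegrableOn (fun x => ‖gs F 0 t x‖ ^ 2) Ω volume := by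
    have := (hi 0).norm
    refine this.congr (Eventually.of_forall fun x => ?_)
    simp only [norm_mul, norm_ee, one_mul, Complex.norm_real]
    rw [Real.norm_of_nonneg (by positivity)]
  have h1 : T.card * ((1 - 2 * ε) * F.card * volume.real Ω) ≤
      (∑ τ ∈ T, ∫ x in Ω, ee τ (x + t) * ((‖gs F 0 t x‖ ^ 2 : ℝ) : ℂ)).re := by
    rw [Complex.re_sum, ← nsmul_eq_mul, ← Finset.sum_const]
    refine Finset.sum_le_sum fun τ hτ => le_trans ?_ (mass_shift hfin horth τ t)
    gcongr
    have := hTF τ hτ
    linarith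
  have h2 : (∑ τ ∈ T, ∫ x in Ω, ee τ (x + t) * ((‖gs F 0 t x‖ ^ 2 : ℝ) : ℂ)).re ≤
      a * T.card * (F.card * volume.real Ω) := by
    rw [← integral_finsetSum _ fun τ _ => hi τ]
    refine (Complex.re_le_norm _).trans ?_
    calc ‖∫ x in Ω, ∑ τ ∈ T, ee τ (x + t) * ((‖gs F 0 t x‖ ^ 2 : ℝ) : ℂ)‖ ≤
          ∫ x in Ω, ‖∑ τ ∈ T, ee τ (x + t) * ((‖gs F 0 t x‖ ^ 2 : ℝ) : ℂ)‖ :=
          norm_integral_le_integral_norm _
      _ ≤ ∫ x in Ω, a * T.card * ‖gs F 0 t x‖ ^ 2 := by
          refine setIntegral_mono_on (integrable_finsetSum _ fun τ _ => hi τ).norm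
            (hin.const_mul _) hm fun x hx => ?_
          rw [← Finset.sum_mul, norm_mul, Complex.norm_real, Real.norm_of_nonneg (by positivity)]
          gcongr
          exact (hcon x hx).le
      _ = a * T.card * (F.card * volume.real Ω) := by
          rw [integral_const_mul, integral_norm_gs hfin horth (subset_refl _)]
  have h3 : 0 < (T.card : ℝ) * F.card * volume.real Ω := by positivity
  nlinarith

end Pool.Agent.SpecND
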