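import Pool.Agent.Lib.MP_53fa4a_an.PW

/-!
# The mass of an approximate match of two finite sets of frequencies
-/

set_option autoImplicit false

open MeasureTheory Set Filter
open scoped ENNReal Topology ComplexConjugate

namespace Pool.Agent.SpecND

variable {d : ℕ}

/-- bounded continuous functions, packed -/
def BC (f : E d → ℂ) : Prop := Continuous f ∧ ∃ C : ℝ, ∀ x, ‖f x‖ ≤ C

lemma BC.mul_conj {f g : E d → ℂ} (hf : BC f) (hg : BC g) : BC fun x => f x * conj (g x) := by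
  obtain ⟨hf1, C, hC⟩ := hf
  obtain ⟨hg1, C', hC'⟩ := hg
  refine ⟨hf1.mul (Complex.continuous_conj.comp hg1), C * C', fun x => ?_⟩
  rw [norm_mul, RCLike.norm_conj]
  exact mul_le_mul (hC x) (hC' x) (norm_nonneg _) ((norm_nonneg _).trans (hC x))

lemma BC.mul {f g : E d → ℂ} (hf : BC f) (hg : BC g) : BC fun x => f x * g x := by
  obtain ⟨hf1, C, hC⟩ := hf
  obtain ⟨hg1, C', hC'⟩ := hg
  refine ⟨hf1.mul hg1, C * C', fun x => ?_⟩
  rw [norm_mul]
  exact mul_le_mul (hC x) (hC' x) (norm_nonneg _) ((norm_nonneg _).trans (hC x))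

lemma BC.add {f g : E d → ℂ} (hf : BC f) (hg : BC g) : BC fun x => f x + g x := by
  obtain ⟨hf1, C, hC⟩ := hf
  obtain ⟨hg1, C', hC'⟩ := hg
  exact ⟨hf1.add hg1, C + C', fun x => (norm_add_le _ _).trans (add_le_add (hC x) (hC' x))⟩

lemma BC.sub {f g : E d → ℂ} (hf : BC f) (hg : BC g) : BC fun x => f x - g x := by
  obtain ⟨hf1, C, hC⟩ := hf
  obtain ⟨hg1, C', hC'⟩ := hg
  exact ⟨hf1.sub hg1, C + C', fun x => (norm_sub_le _ _).trans (add_le_add (hC x) (hC' x))⟩

lemma BC.integrable {Ω : Set (E d)} (hfin : volume Ω ≠ ∞) {f : E d → ℂ} (hf : BC f) :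
    IntegrableOn f Ω volume := by
  obtain ⟨hf1, C, hC⟩ := hf
  exact integrable_of_cont hfin hf1 hC

lemma BC.integrable_sq {Ω : Set (E d)} (hfin : volume Ω ≠ ∞) {f : E d → ℂ} (hf : BC f) :
    IntegrableOn (fun x => ‖f x‖ ^ 2) Ω volume := by
  have := (hf.mul_conj hf).integrable hfin |>.norm
  refine this.congr (Eventually.of_forall fun x => ?_)
  simp only [norm_mul, RCLike.norm_conj]
  ring

lemma bc_gs (A : Finset (E d)) (σ t : E d) : BC (gs A σ t) :=
  ⟨continuous_gs A σ t, _, norm_gs_le A σ t⟩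

lemma bc_ee (τ t : E d) : BC fun x => ee τ (x + t) :=
  ⟨(continuous_ee τ).comp (continuous_id.add continuous_const), 1, fun x => (norm_ee _ _).le⟩

/-- Cauchy-Schwarz in the form of the inequality of the means -/
lemma amgm {Ω : Set (E d)} (hfin : volume Ω ≠ ∞) {f g : E d → ℂ} (hf : BC f) (hg : BC g)
    {θ : ℝ} (hθ : 0 < θ) :
    ∫ x in Ω, ‖f x‖ * ‖g x‖ ≤
      θ / 2 * (∫ x in Ω, ‖f x‖ ^ 2) + 1 / (2 * θ) * (∫ x in Ω, ‖g x‖ ^ 2) := by
  have h1 := hf.integrable_sq hfin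
  have h2 := hg.integrable_sq hfin
  have h3 : IntegrableOn (fun x => ‖f x‖ * ‖g x‖) Ω volume := by
    refine ((hf.mul_conj hg).integrable hfin).norm.congr (Eventually.of_forall fun x => ?_)
    simp only [norm_mul, RCLike.norm_conj]
  rw [← integral_const_mul, ← integral_const_mul,
    ← integral_add (h1.const_mul _) (h2.const_mul _)]
  refine integral_mono h3 ((h1.const_mul _).add (h2.const_mul _)) fun x => ?_
  have h4 : θ / 2 * ‖f x‖ ^ 2 + 1 / (2 * θ) * ‖g x‖ ^ 2 - ‖f x‖ * ‖g x‖ =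
      1 / (2 * θ) * (θ * ‖f x‖ - ‖g x‖) ^ 2 := by
    field_simp
    ring
  have h5 : 0 ≤ 1 / (2 * θ) * (θ * ‖f x‖ - ‖g x‖) ^ 2 := by positivity
  simp only
  linarith

lemma norm_integral_mul_conj_le {Ω : Set (E d)} (hfin : volume Ω ≠ ∞) {f g : E d → ℂ}
    (hf : BC f) (hg : BC g) {θ : ℝ} (hθ : 0 < θ) :
    ‖∫ x in Ω, f x * conj (g x)‖ ≤
      θ / 2 * (∫ x in Ω, ‖f x‖ ^ 2) + 1 / (2 * θ) * (∫ x in Ω, ‖g x‖ ^ 2) := by
  refine (norm_integral_le_integral_norm _).trans (le_trans (le_of_eq ?_) (amgm hfin hf hg hθ))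
  refine integral_congr_ae (Eventually.of_forall fun x => ?_)
  simp only [norm_mul, RCLike.norm_conj]

/-- The mass of an approximate match. -/
theorem mass_match {Ω : Set (E d)} (hm : MeasurableSet Ω) (hfin : volume Ω ≠ ∞)
    {F F' : Finset (E d)}
    (horth : ∀ l ∈ F, ∀ l' ∈ F, l ≠ l' → ∫ x in Ω, ee l x * conj (ee l' x) = 0)
    (horth' : ∀ l ∈ F', ∀ l' ∈ F', l ≠ l' → ∫ x in Ω, ee l x * conj (ee l' x) = 0)
    {τ t : E d} {κ ρ θ : ℝ} (hκ : 0 ≤ κ) (hρ : 0 ≤ ρ) (ht : ∀ x ∈ Ω, ‖x + t‖ ≤ ρ)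
    (hθ : 0 < θ) (hθκ : Real.exp (2 * Real.pi * (d * (κ * ρ))) - 1 ≤ θ)
    {P : Finset (E d)} (hP : P ⊆ F') {σ : E d → E d} (hinj : Set.InjOn σ (P : Set (E d)))
    (hσ : ∀ l ∈ P, σ l ∈ F ∧ dist (l + τ) (σ l) ≤ κ) :
    (2 * (P.card : ℝ) - (1 + 2 * θ) * ((F.card + F'.card) / 2)) * volume.real Ω ≤
      (∫ x in Ω, ee τ (x + t) * gs F' 0 t x * conj (gs F 0 t x)).re := by
  classical
  set V := volume.real Ω with hV
  have hV0 : 0 ≤ V := measureReal_nonneg
  set P' := P.image σ with hP'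
  set N := F' \ P with hN
  set M := F \ P' with hM
  have hP'F : P' ⊆ F := by
    intro l hl
    obtain ⟨m, hm', rfl⟩ := Finset.mem_image.1 hl
    exact (hσ m hm').1
  have hcP' : P'.card = P.card := Finset.card_image_of_injOn hinj
  have hNF : N ⊆ F' := Finset.sdiff_subset
  have hMF : M ⊆ F := Finset.sdiff_subset
  have hcN : (N.card : ℝ) = F'.card - P.card := by
    rw [hN, Finset.card_sdiff_of_subset hP, Nat.cast_sub (Finset.card_le_card hP)]
  have hcM : (M.card : ℝ) = F.card - P.card := by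
    rw [hM, Finset.card_sdiff_of_subset hP'F, Nat.cast_sub (Finset.card_le_card hP'F), hcP']
  have hPF : (P.card : ℝ) ≤ F.card := by
    rw [← hcP']
    exact_mod_cast Finset.card_le_card hP'F
  have hPF' : (P.card : ℝ) ≤ F'.card := by exact_mod_cast Finset.card_le_card hP
  -- the perturbation
  set s : E d → E d := fun m => Function.invFunOn σ (P : Set (E d)) m + τ - m with hs
  have hinv : ∀ l ∈ P, Function.invFunOn σ (P : Set (E d)) (σ l) = l := fun l hl =>
    hinj.leftInvOn_invFunOn (Finset.mem_coe.2 hl)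
  have hsκ : ∀ m ∈ P', ‖s m‖ ≤ κ := by
    intro m hm'
    obtain ⟨l, hl, rfl⟩ := Finset.mem_image.1 hm'
    simp only [hs]
    rw [hinv l hl, ← dist_eq_norm]
    exact (hσ l hl).2
  have hpert := perturb hm hfin horth hP'F hκ hρ hsκ ht
  set D : E d → ℂ := fun x => gs P τ t x - gs P' 0 t x with hD
  have hDeq : ∀ x, ∑ m ∈ P', (ee (m + s m) (x + t) - ee m (x + t)) = D x := by
    intro x
    have e0 : D x = gs P τ t x - gs P' 0 t x := rfl
    rw [e0, hP', Finset.sum_image hinj]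
    unfold gs
    rw [Finset.sum_image hinj, ← Finset.sum_sub_distrib]
    refine Finset.sum_congr rfl fun l hl => ?_
    simp only [hs]
    rw [hinv l hl, add_zero]
    congr 2
    abel
  simp_rw [hDeq] at hpert
  rw [hcP'] at hpert
  have hD2 : ∫ x in Ω, ‖D x‖ ^ 2 ≤ θ ^ 2 * (P.card * V) := by
    refine hpert.trans ?_
    have h0 : 0 ≤ Real.exp (2 * Real.pi * (d * (κ * ρ))) - 1 := by
      rw [sub_nonneg]
      exact Real.one_le_exp (by positivity)
    gcongr
  have bD : BC D := (bc_gs P τ t).sub (bc_gs P' 0 t)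
  -- decomposition of the integrand
  have d1 : ∀ x, ee τ (x + t) * gs F' 0 t x = gs P τ t x + gs N τ t x := by
    intro x
    unfold gs
    rw [hN, add_comm (∑ l ∈ P, _), Finset.sum_sdiff hP, Finset.mul_sum]
    refine Finset.sum_congr rfl fun l _ => ?_
    rw [add_zero, ee_add_left, mul_comm]
  have d2 : ∀ x, gs F 0 t x = gs P' 0 t x + gs M 0 t x := by
    intro x
    unfold gs
    rw [hM, add_comm (∑ l ∈ P', _), Finset.sum_sdiff hP'F]
  have d3 : ∀ x, ee τ (x + t) * gs F' 0 t x * conj (gs F 0 t x) =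
      (gs P τ t x * conj (gs P τ t x) + gs N τ t x * conj (gs P τ t x)) +
      (gs P' 0 t x * conj (gs M 0 t x) + D x * conj (gs M 0 t x)) +
      (gs N τ t x * conj (gs M 0 t x) - (gs P τ t x + gs N τ t x) * conj (D x)) := by
    intro x
    have e1 : gs P' 0 t x = gs P τ t x - D x := by
      simp only [hD]
      ring
    rw [d1, d2, e1]
    simp only [map_add, map_sub]
    ring
  have b1 := (bc_gs P τ t).mul_conj (bc_gs P τ t)
  have b2 := (bc_gs N τ t).mul_conj (bc_gs P τ t)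
  have b3 := (bc_gs P' 0 t).mul_conj (bc_gs M 0 t)
  have b4 := bD.mul_conj (bc_gs M 0 t)
  have b5 := (bc_gs N τ t).mul_conj (bc_gs M 0 t)
  have bG := (bc_gs P τ t).add (bc_gs N τ t)
  have b6 := bG.mul_conj bD
  have i1 : ∫ x in Ω, gs P τ t x * conj (gs P τ t x) = (P.card * V : ℝ) := by
    rw [integral_gs hfin horth' hP hP, Finset.inter_self]
  have i2 : ∫ x in Ω, gs N τ t x * conj (gs P τ t x) = 0 := by
    rw [integral_gs hfin horth' hNF hP, hN, Finset.sdiff_inter_self]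
    simp
  have i3 : ∫ x in Ω, gs P' 0 t x * conj (gs M 0 t x) = 0 := by
    rw [integral_gs hfin horth hP'F hMF, hM, Finset.inter_sdiff_self]
    simp
  have i0 : ∫ x in Ω, ee τ (x + t) * gs F' 0 t x * conj (gs F 0 t x) =
      (P.card * V : ℝ) + (∫ x in Ω, D x * conj (gs M 0 t x)) +
        ((∫ x in Ω, gs N τ t x * conj (gs M 0 t x)) -
          ∫ x in Ω, (gs P τ t x + gs N τ t x) * conj (D x)) := by
    simp_rw [d3]
    rw [integral_add ((b1.add b2).add (b3.add b4) |>.integrable hfin)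
      ((b5.sub b6).integrable hfin),
      integral_add ((b1.add b2).integrable hfin) ((b3.add b4).integrable hfin),
      integral_add (b1.integrable hfin) (b2.integrable hfin),
      integral_add (b3.integrable hfin) (b4.integrable hfin),
      integral_sub (b5.integrable hfin) (b6.integrable hfin), i1, i2, i3, add_zero, zero_add]
  -- the norms
  have n1 : ∫ x in Ω, ‖gs M 0 t x‖ ^ 2 = M.card * V := integral_norm_gs hfin horth hMF 0 t
  have n2 : ∫ x in Ω, ‖gs N τ t x‖ ^ 2 = N.card * V := integral_norm_gs hfin horth' hNF τ t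
  have n3 : ∫ x in Ω, ‖gs P τ t x + gs N τ t x‖ ^ 2 = F'.card * V := by
    rw [← integral_norm_gs hfin horth' (subset_refl F') 0 t]
    refine integral_congr_ae (Eventually.of_forall fun x => ?_)
    simp only
    rw [← d1, norm_mul, norm_ee, one_mul]
  have j1 := norm_integral_mul_conj_le hfin (bc_gs M 0 t) bD hθ
  have j1' : ‖∫ x in Ω, D x * conj (gs M 0 t x)‖ = ‖∫ x in Ω, gs M 0 t x * conj (D x)‖ := by
    rw [← RCLike.norm_conj (∫ x in Ω, gs M 0 t x * conj (D x)), ← integral_conj]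
    congr 1
    refine integral_congr_ae (Eventually.of_forall fun x => ?_)
    simp only [map_mul, Complex.conj_conj]
    ring
  have j2 := norm_integral_mul_conj_le hfin (bc_gs N τ t) (bc_gs M 0 t) one_pos
  have j3 := norm_integral_mul_conj_le hfin bG bD hθ
  rw [n1] at j1
  rw [n1, n2] at j2
  rw [n3] at j3
  have hq : 1 / (2 * θ) * (∫ x in Ω, ‖D x‖ ^ 2) ≤ θ / 2 * (P.card * V) := by
    calc 1 / (2 * θ) * (∫ x in Ω, ‖D x‖ ^ 2) ≤ 1 / (2 * θ) * (θ ^ 2 * (P.card * V)) := by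
          gcongr
      _ = θ / 2 * (P.card * V) := by
          field_simp
  rw [i0]
  simp only [Complex.add_re, Complex.sub_re, Complex.ofReal_re]
  have r1 := (abs_le.1 (Complex.abs_re_le_norm (∫ x in Ω, D x * conj (gs M 0 t x)))).1
  have r2 := (abs_le.1 (Complex.abs_re_le_norm
    (∫ x in Ω, gs N τ t x * conj (gs M 0 t x)))).1
  have r3 := (abs_le.1 (Complex.abs_re_le_norm
    (∫ x in Ω, (gs P τ t x + gs N τ t x) * conj (D x)))).2
  rw [hcM] at j1 j2
  rw [hcN] at j2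
  have f1 : θ / 2 * ((F.card - P.card) * V) + θ / 2 * (P.card * V) =
      θ / 2 * (F.card * V) := by ring
  have f2 : θ / 2 * (P.card * V) ≤ θ / 2 * (F.card * V) := by gcongr
  have f3 : 0 ≤ θ / 2 * (F'.card * V) := by positivity
  have f4 : (2 * (P.card : ℝ) - (1 + 2 * θ) * ((F.card + F'.card) / 2)) * V =
      P.card * V - ((F'.card - P.card) * V + (F.card - P.card) * V) / 2 -
        θ / 2 * (2 * (F.card * V) + 2 * (F'.card * V)) := by ring
  rw [f4]
  linarith

/-- Every translate of `Ω` contains a point where the average of the exponentials of the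
translations that match `F'` with `F` is large. -/
theorem exists_large' {Ω : Set (E d)} (hm : MeasurableSet Ω) (hfin : volume Ω ≠ ∞)
    (hpos : volume Ω ≠ 0) {F F' : Finset (E d)} (hF : F.Nonempty)
    (horth : ∀ l ∈ F, ∀ l' ∈ F, l ≠ l' → ∫ x in Ω, ee l x * conj (ee l' x) = 0)
    (horth' : ∀ l ∈ F', ∀ l' ∈ F', l ≠ l' → ∫ x in Ω, ee l x * conj (ee l' x) = 0)
    {t : E d} {κ ρ θ : ℝ} (hκ : 0 ≤ κ) (hρ : 0 ≤ ρ) (ht : ∀ x ∈ Ω, ‖x + t‖ ≤ ρ)
    (hθ : 0 < θ) (hθκ : Real.exp (2 * Real.pi * (d * (κ * ρ))) - 1 ≤ θ)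
    {ε a : ℝ} (ha0 : 0 ≤ a) (ha : a < 1 - 2 * ε - 2 * θ) {T : Finset (E d)} (hT : T.Nonempty)
    (hTF : ∀ τ ∈ T, ∃ P ⊆ F', (1 - ε) * ((F.card + F'.card : ℝ) / 2) ≤ (P.card : ℝ) ∧
      ∃ σ : E d → E d, Set.InjOn σ (P : Set (E d)) ∧
        ∀ l ∈ P, σ l ∈ F ∧ dist (l + τ) (σ l) ≤ κ) :
    ∃ x ∈ Ω, a * T.card ≤ ‖∑ τ ∈ T, ee τ (x + t)‖ := by
  by_contra hcon
  push Not at hcon
  have hV : 0 < volume.real Ω := ENNReal.toReal_pos hpos hfin
  have hFc : (0 : ℝ) < F.card := by exact_mod_cast hF.card_pos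
  have hTc : (0 : ℝ) < T.card := by exact_mod_cast hT.card_pos
  have hn : 0 < ((F.card + F'.card : ℝ) / 2) := by positivity
  have hi : ∀ τ : E d, BC (fun x => ee τ (x + t) * gs F' 0 t x * conj (gs F 0 t x)) := fun τ =>
    ((bc_ee τ t).mul (bc_gs F' 0 t)).mul_conj (bc_gs F 0 t)
  have h1 : T.card * ((1 - 2 * ε - 2 * θ) * ((F.card + F'.card) / 2) * volume.real Ω) ≤
      (∑ τ ∈ T, ∫ x in Ω, ee τ (x + t) * gs F' 0 t x * conj (gs F 0 t x)).re := by
    rw [Complex.re_sum, ← nsmul_eq_mul, ← Finset.sum_const]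
    refine Finset.sum_le_sum fun τ hτ => ?_
    obtain ⟨P, hPF, hPc, σ, hinj, hσ⟩ := hTF τ hτ
    refine le_trans ?_ (mass_match hm hfin horth horth' hκ hρ ht hθ hθκ hPF hinj hσ)
    refine mul_le_mul_of_nonneg_right ?_ hV.le
    nlinarith
  have h2 : (∑ τ ∈ T, ∫ x in Ω, ee τ (x + t) * gs F' 0 t x * conj (gs F 0 t x)).re ≤
      a * T.card * (((F.card + F'.card) / 2) * volume.real Ω) := by
    rw [← integral_finsetSum _ fun τ _ => (hi τ).integrable hfin]
    refine (Complex.re_le_norm _).trans ?_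
    have hin : IntegrableOn (fun x => ‖gs F' 0 t x‖ * ‖gs F 0 t x‖) Ω volume := by
      refine (((bc_gs F' 0 t).mul_conj (bc_gs F 0 t)).integrable hfin).norm.congr
        (Eventually.of_forall fun x => ?_)
      simp only [norm_mul, RCLike.norm_conj]
    calc ‖∫ x in Ω, ∑ τ ∈ T, ee τ (x + t) * gs F' 0 t x * conj (gs F 0 t x)‖ ≤
          ∫ x in Ω, ‖∑ τ ∈ T, ee τ (x + t) * gs F' 0 t x * conj (gs F 0 t x)‖ :=
          norm_integral_le_integral_norm _
      _ ≤ ∫ x in Ω, a * T.card * (‖gs F' 0 t x‖ * ‖gs F 0 t x‖) := by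
          refine setIntegral_mono_on (integrable_finsetSum _ fun τ _ =>
            (hi τ).integrable hfin).norm (hin.const_mul _) hm fun x hx => ?_
          rw [← Finset.sum_mul, ← Finset.sum_mul, norm_mul, norm_mul, RCLike.norm_conj, mul_assoc]
          gcongr
          exact (hcon x hx).le
      _ = a * T.card * ∫ x in Ω, ‖gs F' 0 t x‖ * ‖gs F 0 t x‖ := integral_const_mul _ _
      _ ≤ a * T.card * (((F.card + F'.card) / 2) * volume.real Ω) := by
          refine mul_le_mul_of_nonneg_left ?_ (by positivity)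
          refine (amgm hfin (bc_gs F' 0 t) (bc_gs F 0 t) one_pos).trans (le_of_eq ?_)
          rw [integral_norm_gs hfin horth (subset_refl _), integral_norm_gs hfin horth'
            (subset_refl _)]
          ring
  have h3 : 0 < (T.card : ℝ) * ((F.card + F'.card) / 2) * volume.real Ω := by positivity
  nlinarith

end Pool.Agent.SpecND
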