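import Pool.Agent.Lib.MP_53fa4a_an.Mass
import Pool.Agent.Lib.MP_53fa4a_an.Cover

/-!
# Small perturbations of the frequencies (Paley-Wiener)
-/

set_option autoImplicit false

open MeasureTheory Set Filter
open scoped ENNReal Topology ComplexConjugate

namespace Pool.Agent.SpecND

variable {d : ℕ}

/-- The sum `∑ b m ⟨s m, x + t⟩ ^ n ee m (x + t)`. -/
noncomputable def pn (A : Finset (E d)) (b : E d → ℂ) (s : E d → E d) (t : E d) (n : ℕ) (x : E d) :
    ℂ := ∑ m ∈ A, b m * ((∑ i, s m i * (x + t) i : ℝ) : ℂ) ^ n * ee m (x + t)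

lemma continuous_pn (A : Finset (E d)) (b : E d → ℂ) (s : E d → E d) (t : E d) (n : ℕ) :
    Continuous (pn A b s t n) := by
  unfold pn
  refine continuous_finsetSum _ fun m _ => ?_
  have h1 : Continuous fun x : E d => ∑ i, s m i * (x + t) i := by
    refine continuous_finsetSum _ fun i _ => continuous_const.mul ?_
    exact (EuclideanSpace.proj i : E d →L[ℝ] ℝ).continuous.comp
      (continuous_id.add continuous_const)
  exact (continuous_const.mul ((Complex.continuous_ofReal.comp h1).pow n)).mul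
    ((continuous_ee m).comp (continuous_id.add continuous_const))

lemma pn_zero_norm {Ω : Set (E d)} (hfin : volume Ω ≠ ∞) {F : Finset (E d)}
    (horth : ∀ l ∈ F, ∀ l' ∈ F, l ≠ l' → ∫ x in Ω, ee l x * conj (ee l' x) = 0)
    {A : Finset (E d)} (hA : A ⊆ F) (b : E d → ℂ) (s : E d → E d) (t : E d) :
    eLpNorm (pn A b s t 0) 2 (volume.restrict Ω) =
      ENNReal.ofReal (Real.sqrt (volume.real Ω * ∑ m ∈ A, ‖b m‖ ^ 2)) := by
  have h0 : pn A b s t 0 = trig A fun m => b m * ee m t := by
    funext x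
    unfold pn trig
    refine Finset.sum_congr rfl fun m _ => ?_
    rw [pow_zero, mul_one, ee_add]
    ring
  have h1 := parseval hfin (Λ := (F : Set (E d))) (fun l hl l' hl' => horth l hl l' hl') (S := A)
    (by exact_mod_cast hA) fun m => b m * ee m t
  rw [← eLpNorm_sq, ← h0] at h1
  have h2 : ∑ m ∈ A, ‖b m * ee m t‖ ^ 2 = ∑ m ∈ A, ‖b m‖ ^ 2 :=
    Finset.sum_congr rfl fun m _ => by rw [norm_mul, norm_ee, mul_one]
  rw [h2] at h1
  have h3 : 0 ≤ volume.real Ω * ∑ m ∈ A, ‖b m‖ ^ 2 :=
    mul_nonneg measureReal_nonneg (Finset.sum_nonneg fun _ _ => sq_nonneg _)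
  have h4 : ENNReal.ofReal (Real.sqrt (volume.real Ω * ∑ m ∈ A, ‖b m‖ ^ 2)) ^ 2 =
      ENNReal.ofReal (volume.real Ω * ∑ m ∈ A, ‖b m‖ ^ 2) := by
    rw [← ENNReal.ofReal_pow (Real.sqrt_nonneg _), Real.sq_sqrt h3]
  rw [← h4] at h1
  exact (ENNReal.pow_right_strictMono two_ne_zero).injective h1

lemma pn_norm {Ω : Set (E d)} (hm : MeasurableSet Ω) (hfin : volume Ω ≠ ∞) {F : Finset (E d)}
    (horth : ∀ l ∈ F, ∀ l' ∈ F, l ≠ l' → ∫ x in Ω, ee l x * conj (ee l' x) = 0)
    {A : Finset (E d)} (hA : A ⊆ F) {s : E d → E d} {κ ρ : ℝ} (hκ : 0 ≤ κ)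
    (hρ : 0 ≤ ρ) (hs : ∀ m ∈ A, ‖s m‖ ≤ κ) {t : E d} (ht : ∀ x ∈ Ω, ‖x + t‖ ≤ ρ) (n : ℕ) :
    ∀ b : E d → ℂ, eLpNorm (pn A b s t n) 2 (volume.restrict Ω) ≤
      ENNReal.ofReal ((d * (κ * ρ)) ^ n * Real.sqrt (volume.real Ω * ∑ m ∈ A, ‖b m‖ ^ 2)) := by
  induction n with
  | zero =>
    intro b
    rw [pow_zero, one_mul]
    exact (pn_zero_norm hfin horth hA b s t).le
  | succ n ih =>
    intro b
    have e1 : pn A b s t (n + 1) = ∑ i : Fin d, fun x =>
        (((x + t) i : ℝ) : ℂ) * pn A (fun m => b m * ((s m i : ℝ) : ℂ)) s t n x := by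
      funext x
      rw [Finset.sum_apply]
      unfold pn
      simp_rw [Finset.mul_sum]
      rw [Finset.sum_comm]
      refine Finset.sum_congr rfl fun m _ => ?_
      rw [pow_succ]
      conv_lhs => rw [Complex.ofReal_sum]
      conv_rhs => rw [Complex.ofReal_sum]
      rw [Finset.mul_sum, Finset.mul_sum, Finset.sum_mul]
      refine Finset.sum_congr rfl fun i _ => ?_
      push_cast
      ring
    rw [e1]
    refine (eLpNorm_sum_le (fun i _ => ?_) one_le_two).trans ?_
    · have hc : Continuous fun x : E d => (((x + t) i : ℝ) : ℂ) :=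
        Complex.continuous_ofReal.comp ((EuclideanSpace.proj i : E d →L[ℝ] ℝ).continuous.comp
          (continuous_id.add continuous_const))
      exact (hc.mul (continuous_pn _ _ _ _ _)).aestronglyMeasurable
    · have e2 : ∀ i ∈ (Finset.univ : Finset (Fin d)), eLpNorm (fun x => (((x + t) i : ℝ) : ℂ) *
          pn A (fun m => b m * ((s m i : ℝ) : ℂ)) s t n x) 2 (volume.restrict Ω) ≤
          ENNReal.ofReal (κ * ρ * (d * (κ * ρ)) ^ n *
            Real.sqrt (volume.real Ω * ∑ m ∈ A, ‖b m‖ ^ 2)) := by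
        intro i _
        have h1 : eLpNorm (fun x => (((x + t) i : ℝ) : ℂ) *
            pn A (fun m => b m * ((s m i : ℝ) : ℂ)) s t n x) 2 (volume.restrict Ω) ≤
            ENNReal.ofReal ρ * eLpNorm (pn A (fun m => b m * ((s m i : ℝ) : ℂ)) s t n) 2
              (volume.restrict Ω) := by
          refine eLpNorm_le_mul_eLpNorm_of_ae_le_mul ?_ _
          refine ae_restrict_of_forall_mem hm fun x hx => ?_
          rw [norm_mul, Complex.norm_real, Real.norm_eq_abs]
          gcongr
          exact (coord_le_norm (x + t) i).trans (ht x hx)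
        refine h1.trans ?_
        have h2 : Real.sqrt (volume.real Ω * ∑ m ∈ A, ‖b m * ((s m i : ℝ) : ℂ)‖ ^ 2) ≤
            κ * Real.sqrt (volume.real Ω * ∑ m ∈ A, ‖b m‖ ^ 2) := by
          rw [← Real.sqrt_sq hκ, ← Real.sqrt_mul (sq_nonneg _)]
          refine Real.sqrt_le_sqrt ?_
          calc volume.real Ω * ∑ m ∈ A, ‖b m * ((s m i : ℝ) : ℂ)‖ ^ 2 ≤
                volume.real Ω * ∑ m ∈ A, κ ^ 2 * ‖b m‖ ^ 2 := by
                refine mul_le_mul_of_nonneg_left (Finset.sum_le_sum fun m hm' => ?_)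
                  measureReal_nonneg
                rw [norm_mul, Complex.norm_real, mul_pow, mul_comm]
                refine mul_le_mul_of_nonneg_right ?_ (sq_nonneg _)
                refine pow_le_pow_left₀ (norm_nonneg _) ?_ 2
                rw [Real.norm_eq_abs]
                exact (coord_le_norm (s m) i).trans (hs m hm')
            _ = κ ^ 2 * (volume.real Ω * ∑ m ∈ A, ‖b m‖ ^ 2) := by
                rw [← Finset.mul_sum]
                ring
        calc ENNReal.ofReal ρ * eLpNorm (pn A (fun m => b m * ((s m i : ℝ) : ℂ)) s t n) 2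
              (volume.restrict Ω) ≤ ENNReal.ofReal ρ * ENNReal.ofReal ((d * (κ * ρ)) ^ n *
                Real.sqrt (volume.real Ω * ∑ m ∈ A, ‖b m * ((s m i : ℝ) : ℂ)‖ ^ 2)) := by
              gcongr
              exact ih _
          _ = ENNReal.ofReal (ρ * ((d * (κ * ρ)) ^ n *
                Real.sqrt (volume.real Ω * ∑ m ∈ A, ‖b m * ((s m i : ℝ) : ℂ)‖ ^ 2))) :=
              (ENNReal.ofReal_mul hρ).symm
          _ ≤ ENNReal.ofReal (ρ * ((d * (κ * ρ)) ^ n *
                (κ * Real.sqrt (volume.real Ω * ∑ m ∈ A, ‖b m‖ ^ 2)))) := by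
              refine ENNReal.ofReal_le_ofReal ?_
              gcongr
          _ = _ := by
              congr 1
              ring
      refine (Finset.sum_le_sum e2).trans (le_of_eq ?_)
      rw [Finset.sum_const, Finset.card_univ, Fintype.card_fin, nsmul_eq_mul,
        ← ENNReal.ofReal_natCast, ← ENNReal.ofReal_mul (Nat.cast_nonneg _)]
      congr 1
      ring

/-- Moving the frequencies by at most `κ` moves a sum of orthogonal exponentials by a small amount
in mean square on the translates of `Ω`. -/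
theorem perturb {Ω : Set (E d)} (hm : MeasurableSet Ω) (hfin : volume Ω ≠ ∞) {F : Finset (E d)}
    (horth : ∀ l ∈ F, ∀ l' ∈ F, l ≠ l' → ∫ x in Ω, ee l x * conj (ee l' x) = 0)
    {A : Finset (E d)} (hA : A ⊆ F) {s : E d → E d} {κ ρ : ℝ} (hκ : 0 ≤ κ)
    (hρ : 0 ≤ ρ) (hs : ∀ m ∈ A, ‖s m‖ ≤ κ) {t : E d} (ht : ∀ x ∈ Ω, ‖x + t‖ ≤ ρ) :
    ∫ x in Ω, ‖∑ m ∈ A, (ee (m + s m) (x + t) - ee m (x + t))‖ ^ 2 ≤
      (Real.exp (2 * Real.pi * (d * (κ * ρ))) - 1) ^ 2 * (A.card * volume.real Ω) := by
  set V := volume.real Ω with hV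
  have hV0 : 0 ≤ V := measureReal_nonneg
  set D : E d → ℂ := fun x => ∑ m ∈ A, (ee (m + s m) (x + t) - ee m (x + t)) with hD
  set b : E d → ℂ := fun _ => 1 with hb
  have hbs : ∑ m ∈ A, ‖b m‖ ^ 2 = A.card := by simp [hb]
  set S : ℕ → E d → ℂ := fun N => ∑ n ∈ Finset.range N, fun x =>
    (2 * Real.pi * Complex.I) ^ (n + 1) / ((n + 1).factorial : ℂ) * pn A b s t (n + 1) x with hS
  have hScont : ∀ N, Continuous (S N) := by
    intro N
    have : S N = fun x => ∑ n ∈ Finset.range N,
        (2 * Real.pi * Complex.I) ^ (n + 1) / ((n + 1).factorial : ℂ) *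
          pn A b s t (n + 1) x := by
      funext x
      rw [hS]
      simp only [Finset.sum_apply]
    rw [this]
    exact continuous_finsetSum _ fun n _ => continuous_const.mul (continuous_pn _ _ _ _ _)
  set θ : ℝ := Real.exp (2 * Real.pi * (d * (κ * ρ))) - 1 with hθ
  have hx0 : 0 ≤ 2 * Real.pi * (d * (κ * ρ)) := by positivity
  have hθ0 : 0 ≤ θ := by
    rw [hθ, sub_nonneg]
    exact Real.one_le_exp hx0
  -- the norm of the partial sums
  have hSn : ∀ N, eLpNorm (S N) 2 (volume.restrict Ω) ≤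
      ENNReal.ofReal (θ * Real.sqrt (V * A.card)) := by
    intro N
    refine (eLpNorm_sum_le (fun n _ => (continuous_const.mul
      (continuous_pn _ _ _ _ _)).aestronglyMeasurable) one_le_two).trans ?_
    calc ∑ n ∈ Finset.range N, eLpNorm (fun x => (2 * Real.pi * Complex.I) ^ (n + 1) /
          ((n + 1).factorial : ℂ) * pn A b s t (n + 1) x) 2 (volume.restrict Ω) ≤
          ∑ n ∈ Finset.range N, ENNReal.ofReal ((2 * Real.pi * (d * (κ * ρ))) ^ (n + 1) /
            ((n + 1).factorial : ℝ) * Real.sqrt (V * A.card)) := by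
          refine Finset.sum_le_sum fun n _ => ?_
          have h1 : eLpNorm (fun x => (2 * Real.pi * Complex.I) ^ (n + 1) /
              ((n + 1).factorial : ℂ) * pn A b s t (n + 1) x) 2 (volume.restrict Ω) ≤
              ENNReal.ofReal ((2 * Real.pi) ^ (n + 1) / ((n + 1).factorial : ℝ)) *
                eLpNorm (pn A b s t (n + 1)) 2 (volume.restrict Ω) := by
            refine eLpNorm_le_mul_eLpNorm_of_ae_le_mul (Eventually.of_forall fun x => ?_) _
            rw [norm_mul, norm_div, norm_pow, norm_mul, norm_mul, Complex.norm_I,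
              Complex.norm_real, Complex.norm_natCast, Real.norm_of_nonneg Real.pi_pos.le]
            simp
          refine h1.trans ?_
          refine (mul_le_mul_right (pn_norm hm hfin horth hA hκ hρ hs ht (n + 1) b) _).trans ?_
          rw [← ENNReal.ofReal_mul (by positivity), hbs]
          refine le_of_eq ?_
          congr 1
          rw [mul_pow (2 * Real.pi)]
          ring
      _ = ENNReal.ofReal (∑ n ∈ Finset.range N, (2 * Real.pi * (d * (κ * ρ))) ^ (n + 1) /
            ((n + 1).factorial : ℝ) * Real.sqrt (V * A.card)) :=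
          (ENNReal.ofReal_sum_of_nonneg fun n _ => by positivity).symm
      _ ≤ ENNReal.ofReal (θ * Real.sqrt (V * A.card)) := by
          refine ENNReal.ofReal_le_ofReal ?_
          rw [← Finset.sum_mul]
          refine mul_le_mul_of_nonneg_right ?_ (Real.sqrt_nonneg _)
          have h2 := Real.sum_le_exp_of_nonneg hx0 (N + 1)
          rw [Finset.sum_range_succ', pow_zero, Nat.factorial_zero, Nat.cast_one, div_one] at h2
          rw [hθ]
          linarith
  -- pointwise convergence
  have hlim : ∀ x, Tendsto (fun N => S N x) atTop (𝓝 (D x)) := by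
    intro x
    have h1 : ∀ m ∈ A, HasSum (fun n : ℕ => (2 * Real.pi * Complex.I) ^ (n + 1) /
        ((n + 1).factorial : ℂ) * (b m * ((∑ i, s m i * (x + t) i : ℝ) : ℂ) ^ (n + 1) *
          ee m (x + t))) (ee (m + s m) (x + t) - ee m (x + t)) := by
      intro m _
      set y : ℂ := 2 * Real.pi * Complex.I * ((∑ i, s m i * (x + t) i : ℝ) : ℂ) with hy
      have h2 : HasSum (fun n : ℕ => y ^ n / (n.factorial : ℂ)) (Complex.exp y) := by
        have := NormedSpace.expSeries_div_hasSum_exp (𝔸 := ℂ) y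
        rwa [← Complex.exp_eq_exp_ℂ] at this
      have h3 : HasSum (fun n : ℕ => y ^ (n + 1) / ((n + 1).factorial : ℂ))
          (Complex.exp y - 1) := by
        have := (hasSum_nat_add_iff' (f := fun n : ℕ => y ^ n / (n.factorial : ℂ)) 1).2 h2
        simpa using this
      have h4 : ee (m + s m) (x + t) - ee m (x + t) = (Complex.exp y - 1) * ee m (x + t) := by
        have : ee (s m) (x + t) = Complex.exp y := by
          rw [ee_eq_ex, ex, hy]
          congr 1
          push_cast
          ring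
        rw [ee_add_left, this]
        ring
      rw [h4]
      have h5 : (fun n : ℕ => (2 * Real.pi * Complex.I) ^ (n + 1) /
          ((n + 1).factorial : ℂ) * (b m * ((∑ i, s m i * (x + t) i : ℝ) : ℂ) ^ (n + 1) *
          ee m (x + t))) = fun n => y ^ (n + 1) / ((n + 1).factorial : ℂ) * ee m (x + t) := by
        funext n
        rw [hy, mul_pow]
        simp only [hb]
        ring
      rw [h5]
      exact h3.mul_right (ee m (x + t))
    have h6 := (hasSum_sum h1).tendsto_sum_nat
    refine h6.congr fun N => ?_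
    rw [hS]
    simp only [Finset.sum_apply]
    refine Finset.sum_congr rfl fun n _ => ?_
    unfold pn
    rw [Finset.mul_sum]
  have hfinal : eLpNorm D 2 (volume.restrict Ω) ≤
      ENNReal.ofReal (θ * Real.sqrt (V * A.card)) := by
    refine (Lp.eLpNorm_lim_le_liminf_eLpNorm (fun N => (hScont N).aestronglyMeasurable) D
      (Eventually.of_forall hlim)).trans ?_
    refine (liminf_le_liminf (Eventually.of_forall hSn)).trans (le_of_eq ?_)
    simp
  have hDc : Continuous D := by
    rw [hD]
    exact continuous_finsetSum _ fun m _ =>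
      ((continuous_ee _).comp (continuous_id.add continuous_const)).sub
        ((continuous_ee _).comp (continuous_id.add continuous_const))
  have hDint : IntegrableOn (fun x => ‖D x‖ ^ 2) Ω volume := by
    have : IsFiniteMeasure (volume.restrict Ω) :=
      ⟨by rwa [Measure.restrict_apply_univ, lt_top_iff_ne_top]⟩
    refine Integrable.of_bound (hDc.norm.pow 2).aestronglyMeasurable ((A.card * 2 : ℝ) ^ 2)
      (Eventually.of_forall fun x => ?_)
    rw [Real.norm_of_nonneg (by positivity)]
    refine pow_le_pow_left₀ (norm_nonneg _) ?_ 2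
    rw [hD]
    refine (norm_sum_le _ _).trans ?_
    calc ∑ m ∈ A, ‖ee (m + s m) (x + t) - ee m (x + t)‖ ≤ ∑ _m ∈ A, (2 : ℝ) := by
          refine Finset.sum_le_sum fun m _ => (norm_sub_le _ _).trans ?_
          rw [norm_ee, norm_ee]
          norm_num
      _ = A.card * 2 := by simp
  have e1 : ENNReal.ofReal (∫ x in Ω, ‖D x‖ ^ 2) = eLpNorm D 2 (volume.restrict Ω) ^ 2 := by
    rw [eLpNorm_sq, ofReal_integral_eq_lintegral_ofReal hDint
      (Eventually.of_forall fun x => by positivity)]
    refine lintegral_congr fun x => ?_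
    rw [ENNReal.ofReal_pow (norm_nonneg _), ofReal_norm]
  have e2 : ENNReal.ofReal (∫ x in Ω, ‖D x‖ ^ 2) ≤
      ENNReal.ofReal ((θ * Real.sqrt (V * A.card)) ^ 2) := by
    rw [e1, ENNReal.ofReal_pow (by positivity)]
    gcongr
  have e3 := (ENNReal.ofReal_le_ofReal_iff (by positivity)).1 e2
  refine e3.trans (le_of_eq ?_)
  rw [mul_pow, Real.sq_sqrt (by positivity)]
  ring

end Pool.Agent.SpecND
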