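import Mathlib

/-!
# Mass transport for spectral sets

The measure-theoretic core: a density `G` whose integrals over all translates of `Ω` and of `-Ω`
are equal to `M` and which has most of its mass in a small piece `A` of `Ω`.
-/

set_option autoImplicit false

open MeasureTheory Set Filter Metric
open scoped ENNReal Topology

namespace Pool.Agent.SpecND

variable {d : ℕ}

/-- abbreviation for the space -/
abbrev E (d : ℕ) := EuclideanSpace ℝ (Fin d)

/-- The transport inequality. -/
theorem transport {Ω A N D : Set (E d)} {G : E d → ℝ≥0∞} {M c : ℝ≥0∞} {x₀ : E d}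
    (hΩ : MeasurableSet Ω) (hA : MeasurableSet A) (hN : MeasurableSet N)
    (hG : Measurable G)
    (h1 : ∀ t : E d, ∫⁻ x in Ω, G (x + t) = M) (h2 : ∀ t : E d, ∫⁻ x in Ω, G (t - x) = M)
    (hDΩ : D ⊆ Ω)
    (hex : ∀ s ∈ D, ∃ t : E d, ∀ y ∈ Ω, y + t ∉ A ∧ y + t - x₀ + s ∈ N)
    (hc : ∀ x ∈ A, c ≤ volume {s | s ∈ Ω ∧ x - x₀ + s ∈ N}) :
    M * volume D + c * ∫⁻ x in A, G x ≤ M * volume N := by
  classical
  -- the kernels
  let k : E d → E d → ℝ≥0∞ := fun s x => N.indicator 1 (x - x₀ + s) * G x
  have hk : Measurable (Function.uncurry k) := by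
    have hm : Measurable (fun p : E d × E d => p.2 - x₀ + p.1) :=
      (measurable_snd.sub_const x₀).add measurable_fst
    exact ((measurable_one.indicator hN).comp hm).mul (hG.comp measurable_snd)
  have hks : ∀ s, Measurable (k s) := fun s => hk.of_uncurry_left
  have hind : ∀ B : Set (E d), MeasurableSet B →
      Measurable (Function.uncurry fun s x => B.indicator (k s) x) := by
    intro B hB
    have h3 : Measurable (fun p : E d × E d => B.indicator (1 : E d → ℝ≥0∞) p.2) :=
      (measurable_one.indicator hB).comp measurable_snd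
    have h4 : (Function.uncurry fun s x => B.indicator (k s) x) =
        fun p => B.indicator (1 : E d → ℝ≥0∞) p.2 * Function.uncurry k p := by
      funext p
      by_cases hp : p.2 ∈ B
      · simp only [Function.uncurry, indicator_of_mem hp, Pi.one_apply, one_mul]
      · simp only [Function.uncurry, indicator_of_notMem hp, zero_mul]
    rw [h4]
    exact h3.mul hk
  have hkA := hind A hA
  have hkB := hind Aᶜ hA.compl
  let I : E d → ℝ≥0∞ := fun s => ∫⁻ x, Aᶜ.indicator (k s) x
  let J : E d → ℝ≥0∞ := fun s => ∫⁻ x, A.indicator (k s) x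
  have hI : Measurable I := hkB.lintegral_prod_right
  have hJ : Measurable J := hkA.lintegral_prod_right
  -- total
  have htot : ∫⁻ s in Ω, (I s + J s) = M * volume N := by
    have e1 : ∀ s, I s + J s = ∫⁻ x, k s x := by
      intro s
      simp only [I, J]
      rw [← lintegral_add_left ((hks s).indicator hA.compl)]
      refine lintegral_congr fun x => ?_
      by_cases hx : x ∈ A
      · simp [hx]
      · simp [hx]
    have e2 : ∀ s, ∫⁻ x, k s x = ∫⁻ u in N, G (u + x₀ - s) := by
      intro s
      have e3 : ∫⁻ x, k s x = ∫⁻ u, k s (u + (x₀ - s)) :=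
        (lintegral_add_right_eq_self (k s) (x₀ - s)).symm
      rw [e3, ← lintegral_indicator hN]
      refine lintegral_congr fun u => ?_
      have e4 : u + (x₀ - s) - x₀ + s = u := by abel
      have e5 : u + (x₀ - s) = u + x₀ - s := by abel
      simp only [k]
      rw [e4, e5]
      by_cases hu : u ∈ N
      · simp [hu]
      · simp [hu]
    calc ∫⁻ s in Ω, (I s + J s) = ∫⁻ s in Ω, ∫⁻ u in N, G (u + x₀ - s) := by
          refine lintegral_congr fun s => ?_
          rw [e1, e2]
      _ = ∫⁻ u in N, ∫⁻ s in Ω, G (u + x₀ - s) := by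
          have hm : Measurable (fun p : E d × E d => p.2 + x₀ - p.1) :=
            (measurable_snd.add_const x₀).sub measurable_fst
          have hm2 : Measurable (Function.uncurry fun s u : E d => G (u + x₀ - s)) := hG.comp hm
          exact lintegral_lintegral_swap hm2.aemeasurable
      _ = ∫⁻ u in N, M := by
          refine lintegral_congr fun u => h2 (u + x₀)
      _ = M * volume N := by
          rw [setLIntegral_const]
  -- the part outside `A`
  have hIlow : M * volume D ≤ ∫⁻ s in Ω, I s := by
    calc M * volume D = ∫⁻ s in D, M := by rw [setLIntegral_const]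
      _ ≤ ∫⁻ s in D, I s := by
          refine setLIntegral_mono hI fun s hs => ?_
          obtain ⟨t, ht⟩ := hex s hs
          rw [← h1 t, ← lintegral_indicator hΩ]
          have e3 : I s = ∫⁻ y, Aᶜ.indicator (k s) (y + t) :=
            (lintegral_add_right_eq_self (fun y => Aᶜ.indicator (k s) y) t).symm
          rw [e3]
          refine lintegral_mono fun y => ?_
          by_cases hy : y ∈ Ω
          · obtain ⟨ha, hn⟩ := ht y hy
            have ha' : y + t ∈ Aᶜ := ha
            simp only [indicator_of_mem hy, indicator_of_mem ha', k, indicator_of_mem hn,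
              Pi.one_apply, one_mul]
            exact le_refl _
          · simp [hy]
      _ ≤ ∫⁻ s in Ω, I s := lintegral_mono_set hDΩ
  -- the part inside `A`
  have hJlow : c * ∫⁻ x in A, G x ≤ ∫⁻ s in Ω, J s := by
    have e1 : ∫⁻ s in Ω, J s = ∫⁻ x in A, ∫⁻ s in Ω, k s x := by
      have : ∀ s, J s = ∫⁻ x in A, k s x := fun s => lintegral_indicator hA _
      rw [lintegral_congr this]
      exact lintegral_lintegral_swap hk.aemeasurable
    have e2 : ∀ x, ∫⁻ s in Ω, k s x = volume {s | s ∈ Ω ∧ x - x₀ + s ∈ N} * G x := by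
      intro x
      simp only [k]
      rw [lintegral_mul_const]
      · congr 1
        have hm : Measurable (fun s : E d => x - x₀ + s) := measurable_const.add measurable_id
        have hS : MeasurableSet {s : E d | x - x₀ + s ∈ N} := hm hN
        have e3 : (fun s : E d => N.indicator (1 : E d → ℝ≥0∞) (x - x₀ + s)) =
            {s : E d | x - x₀ + s ∈ N}.indicator 1 := by
          funext s
          simp only [indicator, mem_ofPred_eq, Pi.one_apply]
        rw [e3, lintegral_indicator_one hS, Measure.restrict_apply hS]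
        congr 1
        ext s
        simp only [mem_inter_iff, mem_ofPred_eq]
        exact and_comm
      · exact (measurable_one.indicator hN).comp (measurable_const.add measurable_id)
    rw [e1, ← lintegral_const_mul c hG]
    calc ∫⁻ x in A, c * G x ≤ ∫⁻ x in A, volume {s | s ∈ Ω ∧ x - x₀ + s ∈ N} * G x := by
          refine setLIntegral_mono' hA fun x hx => ?_
          exact mul_le_mul_left (hc x hx) _
      _ = ∫⁻ x in A, ∫⁻ s in Ω, k s x := by
          refine lintegral_congr fun x => (e2 x).symm
  calc M * volume D + c * ∫⁻ x in A, G x ≤ (∫⁻ s in Ω, I s) + ∫⁻ s in Ω, J s :=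
        add_le_add hIlow hJlow
    _ = ∫⁻ s in Ω, (I s + J s) := (lintegral_add_left hI _).symm
    _ = M * volume N := htot

/-- small translations move almost nothing -/
theorem small_shift {Ω : Set (E d)} (hΩ : MeasurableSet Ω) (hfin : volume Ω ≠ ∞) {η : ℝ≥0∞}
    (hη : η ≠ 0) : ∃ r : ℝ, 0 < r ∧ ∀ h : E d, ‖h‖ < r →
      volume Ω ≤ volume {s | s ∈ Ω ∧ h + s ∈ Ω} + η := by
  have hη2 : η / 2 ≠ 0 := by simpa using hη
  obtain ⟨C, hCΩ, hC, hCm⟩ := hΩ.exists_isCompact_lt_add hfin hη2
  obtain ⟨U, hΩU, hU, hUfin, hUm⟩ := hΩ.exists_isOpen_sdiff_lt hfin hη2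
  obtain ⟨r, hr, hthick⟩ := hC.exists_thickening_subset_open hU (hCΩ.trans hΩU)
  refine ⟨r, hr, fun h hh => ?_⟩
  have hm : Measurable (fun s : E d => h + s) := measurable_const.add measurable_id
  have h1 : volume C ≤ volume {s | s ∈ Ω ∧ h + s ∈ Ω} + η / 2 := by
    have hsub : C ⊆ {s | s ∈ Ω ∧ h + s ∈ Ω} ∪ (fun s : E d => h + s) ⁻¹' (U \ Ω) := by
      intro s hs
      by_cases hsΩ : h + s ∈ Ω
      · exact Or.inl ⟨hCΩ hs, hsΩ⟩
      · right
        refine ⟨hthick ?_, hsΩ⟩
        rw [mem_thickening_iff]
        refine ⟨s, hs, ?_⟩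
        rw [dist_eq_norm]
        simpa using hh
    refine (measure_mono hsub).trans ((measure_union_le _ _).trans ?_)
    refine add_le_add le_rfl ?_
    rw [measure_preimage_add]
    exact hUm.le
  calc volume Ω ≤ volume C + η / 2 := hCm.le
    _ ≤ volume {s | s ∈ Ω ∧ h + s ∈ Ω} + η / 2 + η / 2 := add_le_add h1 le_rfl
    _ = volume {s | s ∈ Ω ∧ h + s ∈ Ω} + η := by rw [add_assoc, ENNReal.add_halves]

end Pool.Agent.SpecND
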